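import Mathlib

namespace KB

/-- additive version -/
lemma exists_hom_add (B : Type*) [AddCommGroup B] [Module.Finite ℤ B] :
    ∃ (n : ℕ) (h : B →+ (Fin n → ℤ)), ∀ g, h g = 0 → IsOfFinAddOrder g := by
  let T := Submodule.torsion ℤ B
  have : Module.Finite ℤ (B ⧸ T) := inferInstance
  have : Module.IsTorsionFree ℤ (B ⧸ T) := inferInstance
  have : Module.Free ℤ (B ⧸ T) := inferInstance
  let b := Module.finBasis ℤ (B ⧸ T)
  refine ⟨Module.finrank ℤ (B ⧸ T), (b.equivFun.toLinearMap.comp T.mkQ).toAddMonoidHom, ?_⟩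
  intro g hg
  have h1 : b.equivFun (T.mkQ g) = 0 := hg
  have h2 : T.mkQ g = 0 := by
    apply b.equivFun.injective
    rw [h1, map_zero]
  have h3 : g ∈ T := by
    rwa [Submodule.mkQ_apply, Submodule.Quotient.mk_eq_zero] at h2
  rw [Submodule.mem_torsion_iff] at h3
  obtain ⟨a, ha⟩ := h3
  have ha0 : (a : ℤ) ≠ 0 := nonZeroDivisors.ne_zero a.2
  rw [isOfFinAddOrder_iff_nsmul_eq_zero]
  refine ⟨(a : ℤ).natAbs, Int.natAbs_pos.mpr ha0, ?_⟩
  have h4 : (a : ℤ) • g = 0 := ha
  rcases Int.natAbs_eq (a : ℤ) with h | h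
  · rw [← natCast_zsmul, ← h]; exact h4
  · have : ((a : ℤ).natAbs : ℤ) = -(a : ℤ) := by omega
    rw [← natCast_zsmul, this, neg_smul, h4, neg_zero]

lemma extreme_add (B : Type*) [AddCommGroup B] [Module.Finite ℤ B] (P : Finset B)
    (hP : P.Nonempty) :
    ∃ g₀ ∈ P, ∀ g ∈ P, ∀ a ∈ P, ∀ b ∈ P, IsOfFinAddOrder (g - g₀) → a + b = g + g →
      IsOfFinAddOrder (a - g₀) := by
  obtain ⟨n, h, hh⟩ := exists_hom_add B
  have htf : ∀ x : B, IsOfFinAddOrder x → h x = 0 := by
    intro x hx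
    rw [isOfFinAddOrder_iff_nsmul_eq_zero] at hx
    obtain ⟨m, hm, hx⟩ := hx
    have : m • h x = 0 := by rw [← map_nsmul, hx, map_zero]
    funext i
    have h1 := congrFun this i
    simp only [Pi.smul_apply, Pi.zero_apply, nsmul_eq_mul, mul_eq_zero] at h1
    rcases h1 with h1 | h1
    · exfalso
      have : (m : ℤ) ≠ 0 := by exact_mod_cast hm.ne'
      exact this (by simpa using h1)
    · simpa using h1
  let H : B → Lex (Fin n → ℤ) := fun x => toLex (h x)
  have Hadd : ∀ x y, H (x + y) = H x + H y := by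
    intro x y
    simp only [H, map_add]
    rfl
  obtain ⟨g₀, hg₀, hmax⟩ := P.exists_max_image H hP
  refine ⟨g₀, hg₀, ?_⟩
  intro g hg a ha b hb hgt hab
  have h1 : H g = H g₀ := by
    have := htf _ hgt
    rw [map_sub, sub_eq_zero] at this
    simp only [H, this]
  have h2 : H a + H b = H g₀ + H g₀ := by
    rw [← Hadd, hab, Hadd, h1]
  have h3 : H a = H g₀ := by
    by_contra hne
    have hlt : H a < H g₀ := lt_of_le_of_ne (hmax a ha) hne
    have := add_lt_add_of_lt_of_le hlt (hmax b hb)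
    rw [h2] at this
    exact lt_irrefl _ this
  apply hh
  rw [map_sub, sub_eq_zero]
  exact toLex.injective h3

/-- in any commutative group: an extreme class modulo torsion of a finite set -/
lemma extreme {A : Type*} [CommGroup A] (P : Finset A) (hP : P.Nonempty) :
    ∃ g₀ ∈ P, ∀ g ∈ P, ∀ a ∈ P, ∀ b ∈ P, IsOfFinOrder (g / g₀) → a * b = g ^ 2 →
      IsOfFinOrder (a / g₀) := by
  classical
  let G := Subgroup.closure (P : Set A)
  have hsub : ∀ x ∈ P, x ∈ G := fun x hx => Subgroup.subset_closure hx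
  have _i1 : Group.FG G := Group.closure_finset_fg P
  have : AddGroup.FG (Additive G) := inferInstance
  have : Module.Finite ℤ (Additive G) := by
    rw [Module.Finite.iff_addGroup_fg]; infer_instance
  let P' : Finset (Additive G) := P.attach.image fun x => Additive.ofMul ⟨x.1, hsub x.1 x.2⟩
  have hP' : P'.Nonempty := by
    obtain ⟨x, hx⟩ := hP
    exact ⟨_, Finset.mem_image_of_mem _ (Finset.mem_attach _ ⟨x, hx⟩)⟩
  have hmem : ∀ x (hx : x ∈ P), Additive.ofMul (⟨x, hsub x hx⟩ : G) ∈ P' := by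
    intro x hx
    exact Finset.mem_image_of_mem _ (Finset.mem_attach _ ⟨x, hx⟩)
  obtain ⟨g₀, hg₀, key⟩ := extreme_add (Additive G) P' hP'
  obtain ⟨⟨x₀, hx₀⟩, _, rfl⟩ := Finset.mem_image.mp hg₀
  refine ⟨x₀, hx₀, ?_⟩
  intro g hg a ha b hb hfin hab
  have k := key _ (hmem g hg) _ (hmem a ha) _ (hmem b hb)
  have tr : ∀ x (hx : x ∈ P), IsOfFinAddOrder (Additive.ofMul (⟨x, hsub x hx⟩ : G)
      - Additive.ofMul (⟨x₀, hsub x₀ hx₀⟩ : G)) ↔ IsOfFinOrder (x / x₀) := by
    intro x hx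
    rw [← ofMul_div, isOfFinAddOrder_ofMul_iff, isOfFinOrder_iff_pow_eq_one,
      isOfFinOrder_iff_pow_eq_one]
    constructor
    · rintro ⟨n, hn, h⟩
      refine ⟨n, hn, ?_⟩
      have := congrArg (fun t : G => (t : A)) h
      simpa using this
    · rintro ⟨n, hn, h⟩
      refine ⟨n, hn, ?_⟩
      apply Subtype.ext
      simpa using h
  rw [tr g hg, tr a ha] at k
  apply k hfin
  rw [← ofMul_mul, ← ofMul_mul]
  congr 1
  apply Subtype.ext
  show a * b = g * g
  rw [hab, pow_two]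

end KB
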