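import Mathlib

namespace KB

open Polynomial

lemma not_integral_inv_prime {p : ℕ} (hp : p.Prime) : ¬ IsIntegral ℤ ((p : ℂ)⁻¹) := by
  intro h
  have h1 : IsIntegral ℤ ((p : ℚ)⁻¹) := by
    rw [← isIntegral_algebraMap_iff (A := ℚ) (B := ℂ) (algebraMap ℚ ℂ).injective]
    simpa using h
  rw [IsIntegrallyClosed.isIntegral_iff] at h1
  obtain ⟨y, hy⟩ := h1
  have hp0 : (p : ℚ) ≠ 0 := by exact_mod_cast hp.ne_zero
  have h2 : (y : ℚ) * p = 1 := by
    have : (y : ℚ) = (p : ℚ)⁻¹ := by simpa using hy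
    rw [this, inv_mul_cancel₀ hp0]
  have h3 : y * (p : ℤ) = 1 := by exact_mod_cast h2
  have h4 := Int.isUnit_iff.mp (IsUnit.of_mul_eq_one_right y h3)
  have := hp.two_le
  omega

/-- `1 - ξ` is not invertible in the algebraic integers if `ξ` has prime power order. -/
lemma not_integral_primePow {ξ : ℂ} {m : ℕ} (h : IsPrimitiveRoot ξ m) (hm : IsPrimePow m) :
    ¬ IsIntegral ℤ (1 - ξ)⁻¹ := by
  intro hy
  obtain ⟨p, k, hp, hk, rfl⟩ := hm
  have hp' : p.Prime := hp.nat_prime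
  have hm1 : 1 < p ^ k := Nat.one_lt_pow hk.ne' hp'.one_lt
  have hpos : 0 < p ^ k := by omega
  have : NeZero (p ^ k) := ⟨hpos.ne'⟩
  have hξ1 : ξ ≠ 1 := h.ne_one hm1
  have key : ∀ μ ∈ primitiveRoots (p ^ k) ℂ, IsIntegral ℤ (1 - μ)⁻¹ := by
    intro μ hμ
    rw [mem_primitiveRoots hpos] at hμ
    obtain ⟨i, _, hi⟩ := hμ.eq_pow_of_pow_eq_one h.pow_eq_one
    have hμ1 : μ ≠ 1 := hμ.ne_one hm1
    have h1 : (1 - ξ) = (1 - μ) * ∑ j ∈ Finset.range i, μ ^ j := by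
      rw [← hi, ← mul_neg_geom_sum]
    have h2 : (1 - μ)⁻¹ = (1 - ξ)⁻¹ * ∑ j ∈ Finset.range i, μ ^ j := by
      have ha : (1 - ξ) ≠ 0 := sub_ne_zero.mpr (Ne.symm hξ1)
      have hb : (1 - μ) ≠ 0 := sub_ne_zero.mpr (Ne.symm hμ1)
      field_simp
      rw [h1]
    rw [h2]
    apply IsIntegral.mul hy
    apply IsIntegral.sum
    intro j _
    exact (hμ.isIntegral hpos).pow j
  have h3 : ((p : ℂ)) = ∏ μ ∈ primitiveRoots (p ^ k) ℂ, (1 - μ) := by
    have h4 := cyclotomic_eq_prod_X_sub_primitiveRoots (Complex.isPrimitiveRoot_exp (p ^ k) hpos.ne')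
    have h5 : eval 1 (cyclotomic (p ^ k) ℂ) = p := by
      have : Fact p.Prime := ⟨hp'⟩
      obtain ⟨l, rfl⟩ := Nat.exists_eq_succ_of_ne_zero hk.ne'
      exact eval_one_cyclotomic_prime_pow l
    rw [← h5, h4, eval_prod]
    simp
  have h6 : IsIntegral ℤ ((p : ℂ)⁻¹) := by
    rw [h3, ← Finset.prod_inv_distrib]
    exact IsIntegral.prod _ key
  exact not_integral_inv_prime hp' h6

/-- `1 - ξ` is invertible in `ℤ[ξ]` if the order of `ξ` is not a prime power. -/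
lemma inv_mem_adjoin {ξ : ℂ} {m : ℕ} (h : IsPrimitiveRoot ξ m) (hm1 : 1 < m)
    (hm : ¬ IsPrimePow m) : (1 - ξ)⁻¹ ∈ Algebra.adjoin ℤ {ξ} := by
  have hpos : 0 < m := by omega
  have : NeZero m := ⟨hpos.ne'⟩
  have h5 : eval 1 (cyclotomic m ℂ) = 1 := by
    apply eval_one_cyclotomic_not_prime_pow
    intro p hp k hk
    apply hm
    rcases Nat.eq_zero_or_pos k with rfl | hk0
    · simp at hk; omega
    · exact ⟨p, k, hp.prime, hk0, hk⟩
  have h4 := cyclotomic_eq_prod_X_sub_primitiveRoots h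
  rw [h4, eval_prod] at h5
  simp only [eval_sub, eval_X, eval_C] at h5
  have hmem : ξ ∈ primitiveRoots m ℂ := (mem_primitiveRoots hpos).mpr h
  rw [← Finset.mul_prod_erase _ _ hmem] at h5
  have h6 : (1 - ξ)⁻¹ = ∏ μ ∈ (primitiveRoots m ℂ).erase ξ, (1 - μ) := by
    rw [inv_eq_of_mul_eq_one_right h5]
  rw [h6]
  apply Subalgebra.prod_mem
  intro μ hμ
  have hμ' := (mem_primitiveRoots hpos).mp (Finset.mem_of_mem_erase hμ)
  obtain ⟨i, _, hi⟩ := h.eq_pow_of_pow_eq_one hμ'.pow_eq_one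
  rw [← hi]
  exact Subalgebra.sub_mem _ (Subalgebra.one_mem _)
    (Subalgebra.pow_mem _ (Algebra.subset_adjoin (Set.mem_singleton _)) i)

end KB
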