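import Mathlib

/-!
Finite planar sets meeting every perpendicular bisector (MP_6f52bd_co).
The plane is `ℂ`.
-/

namespace KB

open scoped ComplexConjugate

/-- `S` is `k`-bisector-rich: the perpendicular bisector of any two distinct points of `S`
contains at least `k` points of `S`. -/
def Rich (k : ℕ) (S : Finset ℂ) : Prop :=
  ∀ p ∈ S, ∀ q ∈ S, p ≠ q → k ≤ (S.filter fun x => dist x p = dist x q).card

/-- `m` is the order of a rational apex angle of `S`, of the kind that is not a prime power: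
there are `p ≠ q` and `x` in `S` with `|x - p| = |x - q|` such that `(x - p) / (x - q)` is a
primitive `m`-th root of unity, `m > 1` not a prime power. -/
def Adm (S : Finset ℂ) (m : ℕ) : Prop :=
  1 < m ∧ ¬ IsPrimePow m ∧ ∃ p ∈ S, ∃ q ∈ S, ∃ x ∈ S, p ≠ q ∧ dist x p = dist x q ∧
    IsPrimitiveRoot ((x - p) / (x - q)) m

/-- `w` is a unit of the ring of algebraic integers. -/
def AUnit (w : ℂ) : Prop := IsIntegral ℤ w ∧ IsIntegral ℤ w⁻¹

/-- points with coordinates in `ℚ(√3)` -/
def Coord3 (p : ℂ) : Prop :=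
  ∃ a b c d : ℚ, p.re = a + b * Real.sqrt 3 ∧ p.im = c + d * Real.sqrt 3

/-- Kelly's eight points: the vertices of a unit square centred at `0` and the apexes of the
equilateral triangles erected outwards on its sides. -/
noncomputable def kellyPt : Fin 8 → ℂ
  | 0 => (1 + Complex.I) / 2
  | 1 => (-1 + Complex.I) / 2
  | 2 => (-1 - Complex.I) / 2
  | 3 => (1 - Complex.I) / 2
  | 4 => (1 + Real.sqrt 3) / 2
  | 5 => (1 + Real.sqrt 3) / 2 * Complex.I
  | 6 => -((1 + Real.sqrt 3) / 2)
  | 7 => -((1 + Real.sqrt 3) / 2 * Complex.I)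

/-- algebraic unit with rational direction -/
def Uni (z : ℂ) : Prop :=
  IsIntegral ℤ z ∧ IsIntegral ℤ z⁻¹ ∧ ∃ n : ℕ, 0 < n ∧ (z / conj z) ^ n = 1

end KB
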