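import Mathlib
import Pool.Agent.KB.Defs
import Pool.Agent.KB.A1
import Pool.Agent.KB.B1

namespace KB

open scoped ComplexConjugate

/-- the direction `z / conj z` as a unit -/
noncomputable def eu (z : ℂ) : ℂˣ :=
  if h : z = 0 then 1 else Units.mk0 (z / conj z) (div_ne_zero h (by simpa using h))

lemma eu_val {z : ℂ} (h : z ≠ 0) : ((eu z : ℂˣ) : ℂ) = z / conj z := by
  simp [eu, h]

lemma conj_ne {z : ℂ} (h : z ≠ 0) : conj z ≠ 0 := by simpa using h

lemma key_id {a b : ℂ} (h : ‖a - b‖ = ‖a‖) : (a - b) * conj b = -(conj a * b) := by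
  have h1 : (a - b) * conj (a - b) = a * conj a := by
    rw [Complex.mul_conj, Complex.mul_conj, Complex.normSq_eq_norm_sq, Complex.normSq_eq_norm_sq, h]
  rw [map_sub] at h1
  linear_combination -h1

lemma dist_norm {x p q : ℂ} (h : dist x p = dist x q) : ‖(x - q) - (p - q)‖ = ‖x - q‖ := by
  rw [Complex.dist_eq, Complex.dist_eq] at h
  rw [← h]; congr 1; ring

lemma apex_ne {x p q : ℂ} (hpq : p ≠ q) (h : dist x p = dist x q) : x ≠ p ∧ x ≠ q := by
  constructor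
  · rintro rfl
    rw [dist_self] at h
    exact hpq (dist_eq_zero.mp h.symm)
  · rintro rfl
    rw [dist_self] at h
    exact hpq (dist_eq_zero.mp h).symm

/-- `ξ = (x-p)/(x-q)` in terms of directions -/
lemma xi_eq {x p q : ℂ} (hpq : p ≠ q) (h : dist x p = dist x q) :
    (x - p) / (x - q) = - ((p - q) / conj (p - q)) / ((x - q) / conj (x - q)) := by
  obtain ⟨hp, hq⟩ := apex_ne hpq h
  have k := key_id (dist_norm h)
  have ha : x - q ≠ 0 := sub_ne_zero.mpr hq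
  have hb : p - q ≠ 0 := sub_ne_zero.mpr hpq
  have hca : conj (x - q) ≠ 0 := conj_ne ha
  have hcb : conj (p - q) ≠ 0 := conj_ne hb
  have k' : (x - p) * conj (p - q) = -(conj (x - q) * (p - q)) := by
    rw [← k]; ring
  field_simp
  linear_combination k'

lemma eu_mul {x p q : ℂ} (hpq : p ≠ q) (h : dist x p = dist x q) :
    eu (x - p) * eu (x - q) = eu (p - q) ^ 2 := by
  obtain ⟨hp, hq⟩ := apex_ne hpq h
  have k := key_id (dist_norm h)
  have ha : x - q ≠ 0 := sub_ne_zero.mpr hq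
  have ha' : x - p ≠ 0 := sub_ne_zero.mpr hp
  have hb : p - q ≠ 0 := sub_ne_zero.mpr hpq
  have hca : conj (x - q) ≠ 0 := conj_ne ha
  have hca' : conj (x - p) ≠ 0 := conj_ne ha'
  have hcb : conj (p - q) ≠ 0 := conj_ne hb
  have k' : (x - p) * conj (p - q) = -(conj (x - q) * (p - q)) := by
    rw [← k]; ring
  have k'' : conj (x - p) * (p - q) = -((x - q) * conj (p - q)) := by
    have := congrArg conj k'
    simpa [map_mul, map_neg, map_sub] using this
  apply Units.ext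
  rw [Units.val_mul, Units.val_pow_eq_pow_val, eu_val ha, eu_val ha', eu_val hb]
  field_simp
  linear_combination ((x - q) * conj (p - q)) * k' - (conj (x - q) * (p - q)) * k''

lemma fin_div {A : Type*} [CommGroup A] {a b c : A} (h1 : IsOfFinOrder (a / c))
    (h2 : IsOfFinOrder (b / c)) : IsOfFinOrder (a / b) := by
  have : a / b = (a / c) * (b / c)⁻¹ := by
    rw [inv_div, div_mul_div_cancel]
  rw [this]
  exact h1.mul h2.inv

lemma exists_max_pre {α : Type*} (s : Finset α) (hs : s.Nonempty) (r : α → α → Prop)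
    (hrefl : ∀ a, r a a) (htrans : ∀ a b c, r a b → r b c → r a c) :
    ∃ a ∈ s, ∀ b ∈ s, r a b → r b a := by
  let _ : Preorder α := { le := r, le_refl := hrefl, le_trans := htrans }
  obtain ⟨m, hm⟩ := s.exists_maximal hs
  exact ⟨m, hm.1, fun b hb h => hm.2 hb h⟩

lemma fin_iff {z : ℂ} {w : ℂ} (hz : z ≠ 0) (hw : w ≠ 0) :
    IsOfFinOrder (eu z / eu w) ↔ ∃ n : ℕ, 0 < n ∧ ((z / w) / conj (z / w)) ^ n = 1 := by
  have e1 : ((eu z / eu w : ℂˣ) : ℂ) = (z / w) / conj (z / w) := by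
    rw [Units.val_div_eq_div_val, eu_val hz, eu_val hw, map_div₀]
    have := conj_ne hz
    have := conj_ne hw
    field_simp
  rw [isOfFinOrder_iff_pow_eq_one]
  constructor
  · rintro ⟨n, hn, h⟩
    refine ⟨n, hn, ?_⟩
    rw [← e1, ← Units.val_pow_eq_pow_val, h, Units.val_one]
  · rintro ⟨n, hn, h⟩
    refine ⟨n, hn, ?_⟩
    apply Units.ext
    rw [Units.val_pow_eq_pow_val, e1, h, Units.val_one]

/-- if the directions of base and leg agree up to torsion, `ξ` is a root of unity -/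
lemma xi_torsion {x p q : ℂ} (hpq : p ≠ q) (h : dist x p = dist x q)
    (ht : IsOfFinOrder (eu (p - q) / eu (x - q))) : IsOfFinOrder ((x - p) / (x - q)) := by
  obtain ⟨hp, hq⟩ := apex_ne hpq h
  have ha : x - q ≠ 0 := sub_ne_zero.mpr hq
  have hb : p - q ≠ 0 := sub_ne_zero.mpr hpq
  rw [isOfFinOrder_iff_pow_eq_one] at ht ⊢
  obtain ⟨n, hn, hh⟩ := ht
  refine ⟨2 * n, by omega, ?_⟩
  have e1 : ((x - p) / (x - q)) = - ((eu (p - q) / eu (x - q) : ℂˣ) : ℂ) := by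
    rw [xi_eq hpq h, Units.val_div_eq_div_val, eu_val ha, eu_val hb, neg_div]
  rw [e1, pow_mul, neg_sq, ← pow_mul, mul_comm 2 n, pow_mul, ← Units.val_pow_eq_pow_val, hh]
  simp

/-- **Core theorem.**  Every finite set `S` with at least two points contains a pair `p₀ ≠ q₀`
such that the family of pairs `p ≠ q` of `S` whose difference is, up to the factor `p₀ - q₀`, an
algebraic unit of rational direction is closed under passing to the legs of isosceles triangles,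
and all these isosceles triangles have a rational apex angle whose order is not a prime power. -/
theorem core (S : Finset ℂ) (hS : 2 ≤ S.card) :
    ∃ p₀ ∈ S, ∃ q₀ ∈ S, p₀ ≠ q₀ ∧
      ∀ p ∈ S, ∀ q ∈ S, p ≠ q → Uni ((p - q) / (p₀ - q₀)) →
        ‖p₀ - q₀‖ ≤ ‖p - q‖ ∧
        ∀ x ∈ S, dist x p = dist x q →
          Uni ((x - p) / (p₀ - q₀)) ∧ Uni ((x - q) / (p₀ - q₀)) ∧
          ∃ m, 1 < m ∧ ¬ IsPrimePow m ∧ IsPrimitiveRoot ((x - p) / (x - q)) m := by
  classical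
  have hne : S.offDiag.Nonempty := by
    obtain ⟨a, ha, b, hb, hab⟩ := Finset.one_lt_card.mp (by omega : 1 < S.card)
    exact ⟨(a, b), by simp [ha, hb, hab]⟩
  let P : Finset ℂˣ := S.offDiag.image fun t => eu (t.1 - t.2)
  obtain ⟨g₀, hg₀, ext⟩ := extreme P (hne.image _)
  have memP : ∀ p ∈ S, ∀ q ∈ S, p ≠ q → eu (p - q) ∈ P := by
    intro p hp q hq hpq
    exact Finset.mem_image.mpr ⟨(p, q), by simp [hp, hq, hpq], rfl⟩
  let T : ℂ → Prop := fun z => IsOfFinOrder (eu z / g₀)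
  have closT : ∀ p ∈ S, ∀ q ∈ S, p ≠ q → T (p - q) → ∀ x ∈ S, dist x p = dist x q →
      T (x - p) ∧ T (x - q) := by
    intro p hp q hq hpq hT x hx hd
    obtain ⟨h1, h2⟩ := apex_ne hpq hd
    refine ⟨ext _ (memP p hp q hq hpq) _ (memP x hx p hp h1) _ (memP x hx q hq h2) hT
      (eu_mul hpq hd), ?_⟩
    refine ext _ (memP p hp q hq hpq) _ (memP x hx q hq h2) _ (memP x hx p hp h1) hT ?_
    rw [mul_comm]; exact eu_mul hpq hd
  let M1 := S.offDiag.filter fun t => T (t.1 - t.2)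
  have hM1 : M1.Nonempty := by
    obtain ⟨t, ht, rfl⟩ := Finset.mem_image.mp hg₀
    refine ⟨t, Finset.mem_filter.mpr ⟨ht, ?_⟩⟩
    show IsOfFinOrder _
    rw [div_self']
    exact IsOfFinOrder.one
  have memM1 : ∀ {p q}, (p, q) ∈ M1 ↔ (p ∈ S ∧ q ∈ S ∧ p ≠ q) ∧ T (p - q) := by
    intro p q
    simp [M1, and_assoc]
  obtain ⟨⟨a₀, b₀⟩, h₀, hmax⟩ := exists_max_pre M1 hM1
    (fun s t => IsIntegral ℤ ((s.1 - s.2) / (t.1 - t.2)) ∧ (t.1 - t.2 ≠ 0 → s.1 - s.2 ≠ 0) ∧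
      (s.1 - s.2 ≠ 0 → t.1 - t.2 ≠ 0))
    (by
      intro a
      refine ⟨?_, id, id⟩
      rcases eq_or_ne (a.1 - a.2) 0 with h | h
      · rw [h, zero_div]; exact isIntegral_zero
      · rw [div_self h]; exact isIntegral_one)
    (by
      intro a b c hab hbc
      refine ⟨?_, fun h => hab.2.1 (hbc.2.1 h), fun h => hbc.2.2 (hab.2.2 h)⟩
      rcases eq_or_ne (b.1 - b.2) 0 with h | h
      · have : a.1 - a.2 = 0 := by
          by_contra h'
          exact hab.2.2 h' h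
        rw [this, zero_div]; exact isIntegral_zero
      · rw [← div_mul_div_cancel₀ h]
        exact hab.1.mul hbc.1)
  obtain ⟨⟨ha₀, hb₀, hab₀⟩, hT₀⟩ := memM1.mp h₀
  have hz₀ : a₀ - b₀ ≠ 0 := sub_ne_zero.mpr hab₀
  -- the class of `a₀ - b₀`
  let M2 := M1.filter fun t => IsIntegral ℤ ((t.1 - t.2) / (a₀ - b₀)) ∧
    IsIntegral ℤ ((a₀ - b₀) / (t.1 - t.2))
  have hM2 : M2.Nonempty := ⟨(a₀, b₀), by
    refine Finset.mem_filter.mpr ⟨h₀, ?_⟩
    simp only [div_self hz₀]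
    exact ⟨isIntegral_one, isIntegral_one⟩⟩
  obtain ⟨⟨p₀, q₀⟩, h₁, hmin⟩ := M2.exists_min_image (fun t => ‖t.1 - t.2‖) hM2
  obtain ⟨h₁', hi1, hi2⟩ := Finset.mem_filter.mp h₁
  obtain ⟨⟨hp₀, hq₀, hpq₀⟩, hT₁⟩ := memM1.mp h₁'
  have hz₁ : p₀ - q₀ ≠ 0 := sub_ne_zero.mpr hpq₀
  simp only at hi1 hi2
  refine ⟨p₀, hp₀, q₀, hq₀, hpq₀, ?_⟩
  intro p hp q hq hpq hU
  obtain ⟨hU1, hU2, hU3⟩ := hU
  have hz : p - q ≠ 0 := sub_ne_zero.mpr hpq
  have hTz : T (p - q) := by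
    have h3 : IsOfFinOrder (eu (p - q) / eu (p₀ - q₀)) := (fin_iff hz hz₁).mpr hU3
    have : eu (p - q) / g₀ = (eu (p - q) / eu (p₀ - q₀)) * (eu (p₀ - q₀) / g₀) := by
      rw [div_mul_div_cancel]
    show IsOfFinOrder _
    rw [this]
    exact h3.mul hT₁
  have hj1 : IsIntegral ℤ ((p - q) / (a₀ - b₀)) := by
    rw [← div_mul_div_cancel₀ hz₁]
    exact hU1.mul hi1
  have hj2 : IsIntegral ℤ ((a₀ - b₀) / (p - q)) := by
    rw [← div_mul_div_cancel₀ hz₁]
    rw [inv_div] at hU2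
    exact hi2.mul hU2
  have hm1 : (p, q) ∈ M1 := memM1.mpr ⟨⟨hp, hq, hpq⟩, hTz⟩
  have hm2 : (p, q) ∈ M2 := Finset.mem_filter.mpr ⟨hm1, hj1, hj2⟩
  refine ⟨hmin _ hm2, ?_⟩
  intro x hx hd
  obtain ⟨hxp, hxq⟩ := apex_ne hpq hd
  have hxp' : x - p ≠ 0 := sub_ne_zero.mpr hxp
  have hxq' : x - q ≠ 0 := sub_ne_zero.mpr hxq
  obtain ⟨hTp, hTq⟩ := closT p hp q hq hpq hTz x hx hd
  have htor : IsOfFinOrder ((x - p) / (x - q)) := xi_torsion hpq hd (fin_div hTz hTq)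
  obtain ⟨n, hn, hpow⟩ := isOfFinOrder_iff_pow_eq_one.mp htor
  have hint : IsIntegral ℤ ((x - p) / (x - q)) := by
    apply IsIntegral.of_pow hn
    rw [hpow]; exact isIntegral_one
  have hint' : IsIntegral ℤ ((x - q) / (x - p)) := by
    apply IsIntegral.of_pow hn
    have : ((x - q) / (x - p)) ^ n = (((x - p) / (x - q)) ^ n)⁻¹ := by
      rw [← inv_pow, inv_div]
    rw [this, hpow, inv_one]; exact isIntegral_one
  have e1 : (p - q) / (x - q) = 1 - (x - p) / (x - q) := by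
    field_simp; ring
  have e2 : (p - q) / (x - p) = (x - q) / (x - p) - 1 := by
    field_simp; ring
  have d1 : IsIntegral ℤ ((p - q) / (x - q)) := by
    rw [e1]; exact isIntegral_one.sub hint
  have d2 : IsIntegral ℤ ((p - q) / (x - p)) := by
    rw [e2]; exact hint'.sub isIntegral_one
  have f1 : IsIntegral ℤ ((a₀ - b₀) / (x - q)) := by
    rw [← div_mul_div_cancel₀ hz]; exact hj2.mul d1
  have f2 : IsIntegral ℤ ((a₀ - b₀) / (x - p)) := by
    rw [← div_mul_div_cancel₀ hz]; exact hj2.mul d2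
  have g1 : IsIntegral ℤ ((x - q) / (a₀ - b₀)) :=
    (hmax (x, q) (memM1.mpr ⟨⟨hx, hq, hxq⟩, hTq⟩) ⟨f1, fun _ => hz₀, fun _ => hxq'⟩).1
  have g2 : IsIntegral ℤ ((x - p) / (a₀ - b₀)) :=
    (hmax (x, p) (memM1.mpr ⟨⟨hx, hp, hxp⟩, hTp⟩) ⟨f2, fun _ => hz₀, fun _ => hxp'⟩).1
  refine ⟨⟨?_, ?_, ?_⟩, ⟨?_, ?_, ?_⟩, orderOf ((x - p) / (x - q)), ?_, ?_, ?_⟩
  · rw [← div_mul_div_cancel₀ hz₀]; exact g2.mul hi2
  · rw [inv_div, ← div_mul_div_cancel₀ hz₀]; exact hi1.mul f2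
  · exact (fin_iff hxp' hz₁).mp (fin_div hTp hT₁)
  · rw [← div_mul_div_cancel₀ hz₀]; exact g1.mul hi2
  · rw [inv_div, ← div_mul_div_cancel₀ hz₀]; exact hi1.mul f1
  · exact (fin_iff hxq' hz₁).mp (fin_div hTq hT₁)
  · have h1 : orderOf ((x - p) / (x - q)) ≠ 0 := orderOf_ne_zero_iff.mpr htor
    have h2 : orderOf ((x - p) / (x - q)) ≠ 1 := by
      rw [Ne, orderOf_eq_one_iff, div_eq_one_iff_eq hxq']
      intro h
      apply hpq
      linear_combination -h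
    omega
  · intro hpp
    refine not_integral_primePow (IsPrimitiveRoot.orderOf _) hpp ?_
    rw [← e1, inv_div, ← div_mul_div_cancel₀ hz₀]
    exact g1.mul hj2
  · exact IsPrimitiveRoot.orderOf _

end KB
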