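import Mathlib

/-!
A checker for decision trees about subsets of the ring `ℤ[ζ]`, `ζ = exp (2πi/12)`,
in coordinates with respect to `1, ζ, ζ², ζ³`.
-/

namespace KB

/-- coordinates of `a + b ζ + c ζ² + d ζ³` -/
structure Z4 where
  a : Int
  b : Int
  c : Int
  d : Int
deriving DecidableEq

namespace Z4

def sub (x y : Z4) : Z4 := ⟨x.a - y.a, x.b - y.b, x.c - y.c, x.d - y.d⟩
def add (x y : Z4) : Z4 := ⟨x.a + y.a, x.b + y.b, x.c + y.c, x.d + y.d⟩
/-- `|z|² = A + B √3` -/
def A (z : Z4) : Int := z.a * z.a + z.b * z.b + z.c * z.c + z.d * z.d + z.a * z.c + z.b * z.d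
def B (z : Z4) : Int := z.a * z.b + z.b * z.c + z.c * z.d
/-- multiplication by `ζ` -/
def mz (z : Z4) : Z4 := ⟨-z.d, z.a, z.b + z.d, z.c⟩
/-- complex conjugate -/
def cj (z : Z4) : Z4 := ⟨z.a + z.c, z.b, -z.c, -z.b - z.d⟩

/-- multiplication by the six numbers `1 / (1 - ξ)`, `ξ` of order `6` or `12` -/
def u1 (z : Z4) : Z4 := z.mz.mz
def u2 (z : Z4) : Z4 := z.sub z.mz.mz
def u3 (z : Z4) : Z4 := z.mz.mz.add z.mz.mz.mz
def u4 (z : Z4) : Z4 := z.sub (z.mz.mz.add z.mz.mz.mz)
def u5 (z : Z4) : Z4 := (z.sub z.mz.mz).add z.mz.mz.mz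
def u6 (z : Z4) : Z4 := z.mz.mz.sub z.mz.mz.mz

/-- `z` is a power of `ζ` times its conjugate -/
def rotc (z : Z4) : Bool :=
  let w := z.cj
  let w1 := w.mz
  let w2 := w1.mz
  let w3 := w2.mz
  let w4 := w3.mz
  let w5 := w4.mz
  let m := (⟨-z.a, -z.b, -z.c, -z.d⟩ : Z4)
  (z == w || z == w1 || z == w2 || z == w3 || z == w4 || z == w5 ||
    m == w || m == w1 || m == w2 || m == w3 || m == w4 || m == w5)

/-- `z` is a unit (of rational direction) -/
def isU (z : Z4) : Bool := (z.A * z.A - 3 * (z.B * z.B) == 1) && z.rotc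

def opts (v w : Z4) : List Z4 :=
  let z := w.sub v
  [v.add z.u1, v.add z.u2, v.add z.u3, v.add z.u4, v.add z.u5, v.add z.u6]

/-- decoding of natural numbers -/
def dec (n : Nat) : Z4 :=
  ⟨(n % 64 : Nat) - 32, (n / 64 % 64 : Nat) - 32, (n / 4096 % 64 : Nat) - 32,
    (n / 262144 % 64 : Nat) - 32⟩

def enc (x : Z4) : Nat :=
  (x.a + 32).toNat + 64 * (x.b + 32).toNat + 4096 * (x.c + 32).toNat + 262144 * (x.d + 32).toNat

def memb (x : Z4) (l : List Nat) : Bool := l.contains x.enc && (dec x.enc == x)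

end Z4

open Z4

/-- The properties of the set of points used: `V` is the set of all `v` such that the point with
coordinates `v` (relative to a base pair) belongs to `S`. -/
structure Sys (k : Nat) (V : Z4 → Prop) : Prop where
  sgn : ∀ v w, V v → V w → isU (w.sub v) = true → 0 ≤ (w.sub v).B
  opt : ∀ v w x, V v → V w → V x → isU (w.sub v) = true → (x.sub v).A = (x.sub w).A →
    (x.sub v).B = (x.sub w).B → x ∈ opts v w
  cnt : ∀ v w, V v → V w → isU (w.sub v) = true →
    ∃ l : List Z4, l.Nodup ∧ k ≤ l.length ∧ ∀ x ∈ l, x ∈ opts v w ∧ V x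

inductive Tr where
  | n (x : Nat) (l r : Tr)
  | g (v w : Nat)
  | o (v w x : Nat)
  | f (v w : Nat)
  | d (i : Nat)

/-- all unit pairs of `T` have all their options in `T` or in the list `N` -/
def closedB (T : List Nat) (N : List Nat) : Bool :=
  T.all fun v => T.all fun w =>
    !(isU ((dec w).sub (dec v))) || (opts (dec v) (dec w)).all fun x => memb x T || memb x N

def chk (k : Nat) (K : Nat → List Nat) : List Nat → List Nat → Tr → Bool
  | P, N, .n x l r => chk k K (x :: P) N l && chk k K P (x :: N) r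
  | P, _, .g v w => P.contains v && P.contains w && isU ((dec w).sub (dec v)) &&
      decide (((dec w).sub (dec v)).B < 0)
  | P, _, .o v w x => P.contains v && P.contains w && P.contains x &&
      isU ((dec w).sub (dec v)) && (((dec x).sub (dec v)).A == ((dec x).sub (dec w)).A) &&
      (((dec x).sub (dec v)).B == ((dec x).sub (dec w)).B) &&
      !((opts (dec v) (dec w)).contains (dec x))
  | P, N, .f v w => P.contains v && P.contains w && isU ((dec w).sub (dec v)) &&
      decide (((opts (dec v) (dec w)).filter fun x => !(memb x N)).length < k)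
  | P, N, .d i => decide (i < 6) && (K i).all (fun x => P.contains x) && closedB (K i) N

lemma memb_mem {x : Z4} {l : List Nat} (h : memb x l = true) : ∃ n ∈ l, dec n = x := by
  unfold memb at h
  rw [Bool.and_eq_true, List.contains_iff_mem, beq_iff_eq] at h
  exact ⟨x.enc, h.1, h.2⟩

/-- the conclusion for a leaf `d i` -/
def Concl (V : Z4 → Prop) (T : List Nat) : Prop :=
  (∀ n ∈ T, V (dec n)) ∧
    ∀ v ∈ T, ∀ w ∈ T, isU ((dec w).sub (dec v)) = true → ∀ x ∈ opts (dec v) (dec w),
      V x → ∃ n ∈ T, dec n = x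

theorem chk_sound (k : Nat) (K : Nat → List Nat) (V : Z4 → Prop) (hV : Sys k V) (t : Tr) :
    ∀ P N : List Nat, (∀ n ∈ P, V (dec n)) → (∀ n ∈ N, ¬ V (dec n)) → chk k K P N t = true →
      ∃ i < 6, Concl V (K i) := by
  induction t with
  | n x l r ihl ihr =>
    intro P N hP hN h
    rw [chk, Bool.and_eq_true] at h
    by_cases hx : V (dec x)
    · exact ihl _ _ (by
        intro n hn
        rcases List.mem_cons.mp hn with rfl | hn
        · exact hx
        · exact hP n hn) hN h.1
    · exact ihr _ _ hP (by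
        intro n hn
        rcases List.mem_cons.mp hn with rfl | hn
        · exact hx
        · exact hN n hn) h.2
  | g v w =>
    intro P N hP hN h
    simp only [chk, Bool.and_eq_true, List.contains_iff_mem, decide_eq_true_eq] at h
    obtain ⟨⟨⟨hv, hw⟩, hu⟩, hb⟩ := h
    exact absurd (hV.sgn _ _ (hP v hv) (hP w hw) hu) (not_le.mpr hb)
  | o v w x =>
    intro P N hP hN h
    simp only [chk, Bool.and_eq_true, List.contains_iff_mem, beq_iff_eq, Bool.not_eq_true',
      ← Bool.not_eq_true] at h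
    obtain ⟨⟨⟨⟨⟨⟨hv, hw⟩, hx⟩, hu⟩, ha⟩, hb⟩, ho⟩ := h
    exact absurd (hV.opt _ _ _ (hP v hv) (hP w hw) (hP x hx) hu ha hb) ho
  | f v w =>
    intro P N hP hN h
    simp only [chk, Bool.and_eq_true, List.contains_iff_mem, decide_eq_true_eq] at h
    obtain ⟨⟨⟨hv, hw⟩, hu⟩, hl⟩ := h
    exfalso
    obtain ⟨l, hnd, hk, hl2⟩ := hV.cnt _ _ (hP v hv) (hP w hw) hu
    have hsub : l ⊆ (opts (dec v) (dec w)).filter fun x => !(memb x N) := by
      intro x hx
      rw [List.mem_filter]
      refine ⟨(hl2 x hx).1, ?_⟩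
      rw [Bool.not_eq_true', ← Bool.not_eq_true]
      intro hm
      obtain ⟨n, hn, rfl⟩ := memb_mem hm
      exact hN n hn (hl2 _ hx).2
    have := (hnd.subperm hsub).length_le
    omega
  | d i =>
    intro P N hP hN h
    simp only [chk, Bool.and_eq_true, List.all_eq_true, List.contains_iff_mem, closedB,
      Bool.or_eq_true, Bool.not_eq_true', ← Bool.not_eq_true, decide_eq_true_eq] at h
    obtain ⟨⟨hi, h1⟩, h2⟩ := h
    refine ⟨i, hi, fun n hn => hP n (h1 n hn), ?_⟩
    intro v hv w hw hu x hx hVx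
    rcases h2 v hv w hw with h3 | h3
    · exact absurd hu h3
    · rcases h3 x hx with h4 | h4
      · exact memb_mem h4
      · obtain ⟨n, hn, rfl⟩ := memb_mem h4
        exact absurd hVx (hN n hn)

end KB
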