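import Mathlib
import Pool.Agent.KB.Defs
import Pool.Agent.KB.Chk

/-! The evaluation `Z4 → ℂ`. -/

namespace KB

open scoped ComplexConjugate
open Z4

/-- the primitive twelfth root of unity -/
noncomputable def zt : ℂ := Complex.exp (2 * Real.pi * Complex.I / (12 : ℕ))

lemma zt_prim : IsPrimitiveRoot zt 12 := Complex.isPrimitiveRoot_exp 12 (by norm_num)

lemma zt6 : zt ^ 6 = -1 := by
  have h1 : (zt ^ 6 - 1) * (zt ^ 6 + 1) = 0 := by
    have := zt_prim.pow_eq_one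
    linear_combination this
  rcases mul_eq_zero.mp h1 with h | h
  · exact absurd (sub_eq_zero.mp h) (zt_prim.pow_ne_one_of_pos_of_lt (by norm_num) (by norm_num))
  · linear_combination h

lemma zt4 : zt ^ 4 = zt ^ 2 - 1 := by
  have h1 : (zt ^ 2 + 1) * (zt ^ 4 - zt ^ 2 + 1) = 0 := by
    linear_combination zt6
  rcases mul_eq_zero.mp h1 with h | h
  · exfalso
    have : zt ^ 4 = 1 := by linear_combination (zt ^ 2 - 1) * h
    exact zt_prim.pow_ne_one_of_pos_of_lt (by norm_num) (by norm_num) this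
  · linear_combination h

lemma zt_ne : zt ≠ 0 := zt_prim.ne_zero (by norm_num)

lemma zt_conj : conj zt = zt - zt ^ 3 := by
  have h1 : zt * conj zt = 1 := by
    rw [Complex.mul_conj, Complex.normSq_eq_norm_sq, zt_prim.norm'_eq_one (by norm_num)]
    simp
  have h2 : zt * (zt - zt ^ 3) = 1 := by linear_combination -zt4
  exact mul_left_cancel₀ zt_ne (h1.trans h2.symm)

/-- evaluation -/
noncomputable def ev (z : Z4) : ℂ := z.a + z.b * zt + z.c * zt ^ 2 + z.d * zt ^ 3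

lemma ev_sub (x y : Z4) : ev (x.sub y) = ev x - ev y := by
  simp only [ev, Z4.sub]; push_cast; ring

lemma ev_add (x y : Z4) : ev (x.add y) = ev x + ev y := by
  simp only [ev, Z4.add]; push_cast; ring

lemma ev_mz (x : Z4) : ev x.mz = zt * ev x := by
  simp only [ev, Z4.mz]; push_cast
  linear_combination (-(x.d : ℂ)) * zt4

lemma ev_cj (x : Z4) : ev x.cj = conj (ev x) := by
  simp only [ev, Z4.cj, map_add, map_mul, map_pow, zt_conj, map_intCast]; push_cast
  linear_combination ((x.c : ℂ) * (1 - zt ^ 2) + (x.d : ℂ) * zt ^ 3 * (zt ^ 2 - 2)) * zt4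

/-- `√3` -/
noncomputable def s3 : ℂ := 2 * zt - zt ^ 3

lemma s3_sq : s3 ^ 2 = 3 := by
  unfold s3
  linear_combination (zt ^ 2 - 3) * zt4

lemma s3_eq : s3 = ((Real.sqrt 3 : ℝ) : ℂ) := by
  have h1 : s3 = zt + conj zt := by rw [zt_conj, s3]; ring
  have h2 : zt + conj zt = ((2 * zt.re : ℝ) : ℂ) := Complex.add_conj zt
  have h3 : zt.re = Real.sqrt 3 / 2 := by
    have : zt = Complex.exp ((Real.pi / 6 : ℝ) * Complex.I) := by
      unfold zt
      congr 1
      push_cast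
      ring
    rw [this, Complex.exp_ofReal_mul_I_re, Real.cos_pi_div_six]
  rw [h1, h2, h3]
  push_cast
  ring

lemma ev_mul_conj (x : Z4) : ev x * conj (ev x) = x.A + x.B * s3 := by
  rw [← ev_cj]
  simp only [ev, Z4.cj, Z4.A, Z4.B, s3]; push_cast
  linear_combination (-(x.b : ℂ) * x.c * zt - x.b * x.d * (zt ^ 2 + 1) - x.b ^ 2
    - 2 * x.c * x.d * zt - x.c ^ 2 - x.d ^ 2 * (zt ^ 2 + 1)) * zt4

lemma norm_ev_sq (x : Z4) : ‖ev x‖ ^ 2 = x.A + x.B * Real.sqrt 3 := by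
  have h := ev_mul_conj x
  rw [Complex.mul_conj, Complex.normSq_eq_norm_sq, s3_eq] at h
  exact_mod_cast h

lemma A_nonneg' (x : Z4) : (x.a ^ 2 + x.b ^ 2 + x.c ^ 2 + x.d ^ 2) ≤ 2 * x.A := by
  unfold Z4.A
  nlinarith [sq_nonneg (x.a + x.c), sq_nonneg (x.b + x.d)]

/-- `A + B √3 = A' + B' √3` forces equality of the coordinates -/
lemma sqrt3_indep {A B A' B' : ℤ} (h : (A : ℝ) + B * Real.sqrt 3 = A' + B' * Real.sqrt 3) :
    A = A' ∧ B = B' := by
  have hirr : Irrational (Real.sqrt 3) := by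
    have := Nat.Prime.irrational_sqrt (p := 3) (by norm_num)
    simpa using this
  have hB : B = B' := by
    by_contra hne
    have hne' : ((B : ℝ) - B') ≠ 0 := by
      rw [sub_ne_zero]; exact_mod_cast hne
    have : Real.sqrt 3 = ((A' - A : ℤ) : ℝ) / ((B - B' : ℤ) : ℝ) := by
      push_cast
      rw [eq_div_iff hne']
      linarith
    rw [this] at hirr
    exact hirr ⟨((A' - A : ℤ) : ℚ) / ((B - B' : ℤ) : ℚ), by push_cast; ring⟩
  subst hB
  constructor
  · have : (A : ℝ) = A' := by linarith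
    exact_mod_cast this
  · rfl

lemma ev_eq_zero {x : Z4} (h : ev x = 0) : x = ⟨0, 0, 0, 0⟩ := by
  have h1 := norm_ev_sq x
  rw [h, norm_zero] at h1
  have h2 := sqrt3_indep (A := 0) (B := 0) (A' := x.A) (B' := x.B) (by
    push_cast; linarith)
  have h3 := A_nonneg' x
  rw [← h2.1] at h3
  have ha : x.a ^ 2 = 0 := by nlinarith [sq_nonneg x.a, sq_nonneg x.b, sq_nonneg x.c, sq_nonneg x.d]
  have hb : x.b ^ 2 = 0 := by nlinarith [sq_nonneg x.a, sq_nonneg x.b, sq_nonneg x.c, sq_nonneg x.d]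
  have hc : x.c ^ 2 = 0 := by nlinarith [sq_nonneg x.a, sq_nonneg x.b, sq_nonneg x.c, sq_nonneg x.d]
  have hd : x.d ^ 2 = 0 := by nlinarith [sq_nonneg x.a, sq_nonneg x.b, sq_nonneg x.c, sq_nonneg x.d]
  cases x
  simp only [pow_eq_zero_iff (two_ne_zero)] at ha hb hc hd
  subst ha hb hc hd
  rfl

lemma ev_inj {x y : Z4} (h : ev x = ev y) : x = y := by
  have h1 : ev (x.sub y) = 0 := by rw [ev_sub, h, sub_self]
  have h2 := ev_eq_zero h1
  cases x; cases y
  simp only [Z4.sub, Z4.mk.injEq] at h2 ⊢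
  omega

lemma ev_integral (x : Z4) : IsIntegral ℤ (ev x) := by
  have hz : IsIntegral ℤ zt := zt_prim.isIntegral (by norm_num)
  have hi : ∀ n : ℤ, IsIntegral ℤ (n : ℂ) := fun n => isIntegral_algebraMap
  unfold ev
  exact (((hi _).add ((hi _).mul hz)).add ((hi _).mul (hz.pow 2))).add ((hi _).mul (hz.pow 3))

lemma isU_norm {x : Z4} (h : isU x = true) : x.A * x.A - 3 * (x.B * x.B) = 1 := by
  unfold isU at h
  rw [Bool.and_eq_true, beq_iff_eq] at h
  exact h.1

lemma isU_ne {x : Z4} (h : isU x = true) : ev x ≠ 0 := by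
  intro h0
  have := isU_norm h
  rw [ev_eq_zero h0] at this
  simp [Z4.A, Z4.B] at this

lemma isU_rot {x : Z4} (h : isU x = true) : ∃ j : ℕ, ev x = zt ^ j * conj (ev x) ∨
    ev x = - (zt ^ j * conj (ev x)) := by
  unfold isU at h
  rw [Bool.and_eq_true] at h
  have h2 := h.2
  unfold rotc at h2
  simp only [Bool.or_eq_true, beq_iff_eq] at h2
  have hneg : ev (⟨-x.a, -x.b, -x.c, -x.d⟩ : Z4) = - ev x := by
    simp only [ev]; push_cast; ring
  have key : ∀ w : Z4, ∀ c : ℂ, ev w = c * conj (ev x) → x = w → ev x = c * conj (ev x) := by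
    intro w c h1 h2; rw [← h1, ← h2]
  have key' : ∀ w : Z4, ∀ c : ℂ, ev w = c * conj (ev x) →
      (⟨-x.a, -x.b, -x.c, -x.d⟩ : Z4) = w → ev x = - (c * conj (ev x)) := by
    intro w c h1 h2; rw [← h1, ← h2, hneg, neg_neg]
  have e0 : ev x.cj = zt ^ 0 * conj (ev x) := by rw [ev_cj]; ring
  have e1 : ev x.cj.mz = zt ^ 1 * conj (ev x) := by rw [ev_mz, ev_cj]; ring
  have e2 : ev x.cj.mz.mz = zt ^ 2 * conj (ev x) := by rw [ev_mz, ev_mz, ev_cj]; ring
  have e3 : ev x.cj.mz.mz.mz = zt ^ 3 * conj (ev x) := by rw [ev_mz, ev_mz, ev_mz, ev_cj]; ring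
  have e4 : ev x.cj.mz.mz.mz.mz = zt ^ 4 * conj (ev x) := by
    rw [ev_mz, ev_mz, ev_mz, ev_mz, ev_cj]; ring
  have e5 : ev x.cj.mz.mz.mz.mz.mz = zt ^ 5 * conj (ev x) := by
    rw [ev_mz, ev_mz, ev_mz, ev_mz, ev_mz, ev_cj]; ring
  rcases h2 with ((((((((((h | h) | h) | h) | h) | h) | h) | h) | h) | h) | h) | h
  · exact ⟨0, Or.inl (key _ _ e0 h)⟩
  · exact ⟨1, Or.inl (key _ _ e1 h)⟩
  · exact ⟨2, Or.inl (key _ _ e2 h)⟩
  · exact ⟨3, Or.inl (key _ _ e3 h)⟩
  · exact ⟨4, Or.inl (key _ _ e4 h)⟩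
  · exact ⟨5, Or.inl (key _ _ e5 h)⟩
  · exact ⟨0, Or.inr (key' _ _ e0 h)⟩
  · exact ⟨1, Or.inr (key' _ _ e1 h)⟩
  · exact ⟨2, Or.inr (key' _ _ e2 h)⟩
  · exact ⟨3, Or.inr (key' _ _ e3 h)⟩
  · exact ⟨4, Or.inr (key' _ _ e4 h)⟩
  · exact ⟨5, Or.inr (key' _ _ e5 h)⟩

lemma isU_uni {x : Z4} (h : isU x = true) : Uni (ev x) := by
  have hne := isU_ne h
  have hc : conj (ev x) ≠ 0 := by simpa using hne
  refine ⟨ev_integral x, ?_, 12, by norm_num, ?_⟩
  · have hn := isU_norm h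
    have hs3 : IsIntegral ℤ s3 := by
      have hz : IsIntegral ℤ zt := zt_prim.isIntegral (by norm_num)
      have hi : ∀ n : ℤ, IsIntegral ℤ (n : ℂ) := fun n => isIntegral_algebraMap
      unfold s3
      exact ((hi 2).mul hz).sub (hz.pow 3)
    have hi : ∀ n : ℤ, IsIntegral ℤ (n : ℂ) := fun n => isIntegral_algebraMap
    have e : (ev x)⁻¹ = ev x.cj * (x.A - x.B * s3) := by
      apply inv_eq_of_mul_eq_one_right
      rw [ev_cj, ← mul_assoc, ev_mul_conj]
      have hn' : (x.A : ℂ) * x.A - 3 * (x.B * x.B) = 1 := by exact_mod_cast hn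
      linear_combination hn' - (x.B : ℂ) ^ 2 * s3_sq
    rw [e]
    exact (ev_integral _).mul ((hi _).sub ((hi _).mul hs3))
  · obtain ⟨j, hj⟩ := isU_rot h
    have h12 := zt_prim.pow_eq_one
    rcases hj with hj | hj
    · have : ev x / conj (ev x) = zt ^ j := by
        rw [div_eq_iff hc]; exact hj
      rw [this, ← pow_mul, mul_comm, pow_mul, h12, one_pow]
    · have : ev x / conj (ev x) = - zt ^ j := by
        rw [div_eq_iff hc, neg_mul]; exact hj
      rw [this, Even.neg_pow (by decide), ← pow_mul, mul_comm, pow_mul, h12, one_pow]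

end KB
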