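import Mathlib
import Pool.Agent.KB.Core
import Pool.Agent.KB.Zeta
import Pool.Agent.KB.Tree

namespace KB

open scoped ComplexConjugate
open Z4

lemma ev_u1 (z : Z4) : ev z.u1 = ev z * zt ^ 2 := by
  unfold Z4.u1; rw [ev_mz, ev_mz]; ring
lemma ev_u2 (z : Z4) : ev z.u2 = ev z * (1 - zt ^ 2) := by
  unfold Z4.u2; rw [ev_sub, ev_mz, ev_mz]; ring
lemma ev_u3 (z : Z4) : ev z.u3 = ev z * (zt ^ 2 + zt ^ 3) := by
  unfold Z4.u3; rw [ev_add, ev_mz, ev_mz, ev_mz, ev_mz, ev_mz]; ring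
lemma ev_u4 (z : Z4) : ev z.u4 = ev z * (1 - zt ^ 2 - zt ^ 3) := by
  unfold Z4.u4; rw [ev_sub, ev_add, ev_mz, ev_mz, ev_mz, ev_mz, ev_mz]; ring
lemma ev_u5 (z : Z4) : ev z.u5 = ev z * (1 - zt ^ 2 + zt ^ 3) := by
  unfold Z4.u5; rw [ev_add, ev_sub, ev_mz, ev_mz, ev_mz, ev_mz, ev_mz]; ring
lemma ev_u6 (z : Z4) : ev z.u6 = ev z * (zt ^ 2 - zt ^ 3) := by
  unfold Z4.u6; rw [ev_sub, ev_mz, ev_mz, ev_mz, ev_mz, ev_mz]; ring

lemma ord_cases {m : ℕ} (h1 : 1 < m) (h2 : ¬ IsPrimePow m) (h3 : m ∣ 12) : m = 6 ∨ m = 12 := by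
  have hm : m ≤ 12 := Nat.le_of_dvd (by norm_num) h3
  interval_cases m
  · exact absurd (Nat.Prime.isPrimePow (by norm_num)) h2
  · exact absurd (Nat.Prime.isPrimePow (by norm_num)) h2
  · exact absurd (show IsPrimePow 4 from (Nat.Prime.isPrimePow (p := 2) (by norm_num)).pow (k := 2) (by norm_num)) h2
  · norm_num at h3
  · exact Or.inl rfl
  · norm_num at h3
  · norm_num at h3
  · norm_num at h3
  · norm_num at h3
  · norm_num at h3
  · exact Or.inr rfl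

/-- the apex in coordinates: `ξ` of order `6` or `12` -/
lemma apex_opt {q z x ξ : ℂ} {m : ℕ} (hx : x - (q + z) = ξ * (x - q)) (hm : m = 6 ∨ m = 12)
    (hξ : IsPrimitiveRoot ξ m) : ∃ u : ℂ, x = q + z * u ∧
      (u = zt ^ 2 ∨ u = 1 - zt ^ 2 ∨ u = zt ^ 2 + zt ^ 3 ∨ u = 1 - zt ^ 2 - zt ^ 3 ∨
        u = 1 - zt ^ 2 + zt ^ 3 ∨ u = zt ^ 2 - zt ^ 3) := by
  have h12 : ξ ^ 12 = 1 := by
    rcases hm with rfl | rfl
    · have := hξ.pow_eq_one
      calc ξ ^ 12 = (ξ ^ 6) ^ 2 := by ring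
        _ = 1 := by rw [this, one_pow]
    · exact hξ.pow_eq_one
  have hne : ∀ k : ℕ, 0 < k → k < 6 → ξ ^ k ≠ 1 := by
    intro k h0 hk
    rcases hm with rfl | rfl
    · exact hξ.pow_ne_one_of_pos_of_lt h0.ne' hk
    · exact hξ.pow_ne_one_of_pos_of_lt h0.ne' (by omega)
  have : NeZero 12 := ⟨by norm_num⟩
  obtain ⟨j, hj, rfl⟩ := zt_prim.eq_pow_of_pow_eq_one h12
  have key : ∀ u : ℂ, (1 - zt ^ j) * u = 1 → x = q + z * u := by
    intro u hu
    have h1 : (1 - zt ^ j) * (x - q) = z := by linear_combination hx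
    calc x = q + (x - q) * ((1 - zt ^ j) * u) := by rw [hu]; ring
      _ = q + ((1 - zt ^ j) * (x - q)) * u := by ring
      _ = q + z * u := by rw [h1]
  have h12' := zt_prim.pow_eq_one
  have h4 := zt4
  interval_cases j
  · exact absurd (by ring : (zt ^ 0) ^ 1 = 1) (hne 1 (by norm_num) (by norm_num))
  · exact ⟨_, key (zt ^ 2 + zt ^ 3) (by linear_combination -h4), by tauto⟩
  · exact ⟨_, key (zt ^ 2) (by linear_combination -h4), by tauto⟩
  · exact absurd (by rw [← pow_mul]; exact h12' : (zt ^ 3) ^ 4 = 1) (hne 4 (by norm_num) (by norm_num))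
  · exact absurd (by rw [← pow_mul]; exact h12' : (zt ^ 4) ^ 3 = 1) (hne 3 (by norm_num) (by norm_num))
  · refine ⟨_, key (1 - zt ^ 2 + zt ^ 3) ?_, by tauto⟩
    have h5 : zt ^ 5 = zt ^ 3 - zt := by linear_combination zt * h4
    rw [h5]; linear_combination (-zt ^ 2 + zt) * h4
  · exact absurd (by rw [← pow_mul]; exact h12' : (zt ^ 6) ^ 2 = 1) (hne 2 (by norm_num) (by norm_num))
  · refine ⟨_, key (zt ^ 2 - zt ^ 3) ?_, by tauto⟩
    have h7 : zt ^ 7 = -zt := by linear_combination zt * zt6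
    rw [h7]; linear_combination -h4
  · refine absurd ?_ (hne 3 (by norm_num) (by norm_num))
    rw [← pow_mul, show 8 * 3 = 12 * 2 by norm_num, pow_mul, h12', one_pow]
  · refine absurd ?_ (hne 4 (by norm_num) (by norm_num))
    rw [← pow_mul, show 9 * 4 = 12 * 3 by norm_num, pow_mul, h12', one_pow]
  · refine ⟨_, key (1 - zt ^ 2) ?_, by tauto⟩
    have h10 : zt ^ 10 = 1 - zt ^ 2 := by linear_combination zt ^ 4 * zt6 - h4
    rw [h10]; linear_combination -h4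
  · refine ⟨_, key (1 - zt ^ 2 - zt ^ 3) ?_, by tauto⟩
    have h11 : zt ^ 11 = zt - zt ^ 3 := by linear_combination zt ^ 5 * zt6 - zt * h4
    rw [h11]; linear_combination (-zt ^ 2 - zt) * h4

/-- the property provided by `core` -/
def CoreP (S : Finset ℂ) (p₀ q₀ : ℂ) : Prop :=
  ∀ p ∈ S, ∀ q ∈ S, p ≠ q → Uni ((p - q) / (p₀ - q₀)) →
    ‖p₀ - q₀‖ ≤ ‖p - q‖ ∧
    ∀ x ∈ S, dist x p = dist x q →
      Uni ((x - p) / (p₀ - q₀)) ∧ Uni ((x - q) / (p₀ - q₀)) ∧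
      ∃ m, 1 < m ∧ ¬ IsPrimePow m ∧ IsPrimitiveRoot ((x - p) / (x - q)) m

/-- the apexes over a unit pair are among the six options -/
lemma apex_mem {S : Finset ℂ} (hA : ∀ m, Adm S m → m ∣ 12) {p₀ q₀ : ℂ}
    (hpq : p₀ ≠ q₀) (hc : CoreP S p₀ q₀) {v w : Z4}
    (hv : q₀ + (p₀ - q₀) * ev v ∈ S) (hw : q₀ + (p₀ - q₀) * ev w ∈ S)
    (hu : isU (w.sub v) = true) {x : ℂ} (hx : x ∈ S)
    (hd : dist x (q₀ + (p₀ - q₀) * ev w) = dist x (q₀ + (p₀ - q₀) * ev v)) :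
    ∃ y ∈ opts v w, x = q₀ + (p₀ - q₀) * ev y := by
  have hz : p₀ - q₀ ≠ 0 := sub_ne_zero.mpr hpq
  have e : (q₀ + (p₀ - q₀) * ev w) - (q₀ + (p₀ - q₀) * ev v) = (p₀ - q₀) * ev (w.sub v) := by
    rw [ev_sub]; ring
  have hne : (q₀ + (p₀ - q₀) * ev w) ≠ (q₀ + (p₀ - q₀) * ev v) := by
    intro h
    have h1 := sub_eq_zero.mpr h
    rw [e] at h1
    rcases mul_eq_zero.mp h1 with h2 | h2
    · exact hz h2
    · exact isU_ne hu h2
  have hU : Uni (((q₀ + (p₀ - q₀) * ev w) - (q₀ + (p₀ - q₀) * ev v)) / (p₀ - q₀)) := by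
    rw [e, mul_div_cancel_left₀ _ hz]
    exact isU_uni hu
  obtain ⟨_, h2⟩ := hc _ hw _ hv hne hU
  obtain ⟨_, _, m, hm1, hm2, hm3⟩ := h2 x hx hd
  have hadm : Adm S m := ⟨hm1, hm2, _, hw, _, hv, x, hx, hne, hd, hm3⟩
  have hcase := ord_cases hm1 hm2 (hA m hadm)
  have hxq : x - (q₀ + (p₀ - q₀) * ev v) ≠ 0 := sub_ne_zero.mpr (apex_ne hne hd).2
  obtain ⟨u, hxu, hu6⟩ := apex_opt (q := q₀ + (p₀ - q₀) * ev v) (z := (p₀ - q₀) * ev (w.sub v))
    (x := x) (by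
      rw [div_mul_cancel₀ _ hxq, ← e]; ring) hcase hm3
  rcases hu6 with h | h | h | h | h | h
  · exact ⟨v.add (w.sub v).u1, by simp [opts], by rw [hxu, h, ev_add, ev_u1]; ring⟩
  · exact ⟨v.add (w.sub v).u2, by simp [opts], by rw [hxu, h, ev_add, ev_u2]; ring⟩
  · exact ⟨v.add (w.sub v).u3, by simp [opts], by rw [hxu, h, ev_add, ev_u3]; ring⟩
  · exact ⟨v.add (w.sub v).u4, by simp [opts], by rw [hxu, h, ev_add, ev_u4]; ring⟩
  · exact ⟨v.add (w.sub v).u5, by simp [opts], by rw [hxu, h, ev_add, ev_u5]; ring⟩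
  · exact ⟨v.add (w.sub v).u6, by simp [opts], by rw [hxu, h, ev_add, ev_u6]; ring⟩

lemma sys_of_core {S : Finset ℂ} {k : ℕ} (hR : Rich k S) (hA : ∀ m, Adm S m → m ∣ 12)
    {p₀ q₀ : ℂ} (hpq : p₀ ≠ q₀) (hc : CoreP S p₀ q₀) :
    Sys k (fun v => q₀ + (p₀ - q₀) * ev v ∈ S) := by
  classical
  have hz : p₀ - q₀ ≠ 0 := sub_ne_zero.mpr hpq
  have hinj : ∀ v w : Z4, q₀ + (p₀ - q₀) * ev v = q₀ + (p₀ - q₀) * ev w → v = w := by
    intro v w h
    have h1 : (p₀ - q₀) * ev v = (p₀ - q₀) * ev w := add_left_cancel h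
    exact ev_inj (mul_left_cancel₀ hz h1)
  have hdist : ∀ v w : Z4, dist (q₀ + (p₀ - q₀) * ev v) (q₀ + (p₀ - q₀) * ev w)
      = ‖p₀ - q₀‖ * ‖ev (v.sub w)‖ := by
    intro v w
    rw [dist_eq_norm, ← norm_mul, ev_sub]
    congr 1; ring
  refine ⟨?_, ?_, ?_⟩
  · intro v w hv hw hu
    have e : (q₀ + (p₀ - q₀) * ev w) - (q₀ + (p₀ - q₀) * ev v) = (p₀ - q₀) * ev (w.sub v) := by
      rw [ev_sub]; ring
    have hne : (q₀ + (p₀ - q₀) * ev w) ≠ (q₀ + (p₀ - q₀) * ev v) := by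
      intro h
      have h1 := sub_eq_zero.mpr h
      rw [e] at h1
      rcases mul_eq_zero.mp h1 with h2 | h2
      · exact hz h2
      · exact isU_ne hu h2
    have hU : Uni (((q₀ + (p₀ - q₀) * ev w) - (q₀ + (p₀ - q₀) * ev v)) / (p₀ - q₀)) := by
      rw [e, mul_div_cancel_left₀ _ hz]
      exact isU_uni hu
    obtain ⟨h1, _⟩ := hc _ hw _ hv hne hU
    rw [e, norm_mul] at h1
    have hzp : 0 < ‖p₀ - q₀‖ := norm_pos_iff.mpr hz
    have h2 : 1 ≤ ‖ev (w.sub v)‖ := by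
      by_contra hlt
      push Not at hlt
      have := mul_lt_mul_of_pos_left hlt hzp
      linarith
    have h3 : 1 ≤ ((w.sub v).A : ℝ) + (w.sub v).B * Real.sqrt 3 := by
      rw [← norm_ev_sq]; nlinarith
    have h4 := isU_norm hu
    by_contra hneg
    push Not at hneg
    set A := (w.sub v).A
    set B := (w.sub v).B
    have hB : (B : ℝ) ≤ -1 := by exact_mod_cast (by omega : B ≤ -1)
    have hs : Real.sqrt 3 ^ 2 = 3 := Real.sq_sqrt (by norm_num)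
    have hs0 : 1 < Real.sqrt 3 := by
      rw [show (1 : ℝ) = Real.sqrt 1 by simp]
      exact Real.sqrt_lt_sqrt (by norm_num) (by norm_num)
    have h4' : (A : ℝ) * A - 3 * (B * B) = 1 := by exact_mod_cast h4
    have h5 : ((A : ℝ) + B * Real.sqrt 3) * (A - B * Real.sqrt 3) = 1 := by
      nlinarith
    have h6 : (1 : ℝ) < A - B * Real.sqrt 3 := by nlinarith
    nlinarith
  · intro v w x hv hw hx hu hAe hBe
    have hn : ‖ev (x.sub w)‖ = ‖ev (x.sub v)‖ := by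
      have h1 := norm_ev_sq (x.sub w)
      have h2 := norm_ev_sq (x.sub v)
      rw [hAe, hBe, ← h1] at h2
      have h3 := norm_nonneg (ev (x.sub w))
      have h4 := norm_nonneg (ev (x.sub v))
      nlinarith [sq_nonneg (‖ev (x.sub w)‖ - ‖ev (x.sub v)‖)]
    have hd : dist (q₀ + (p₀ - q₀) * ev x) (q₀ + (p₀ - q₀) * ev w)
        = dist (q₀ + (p₀ - q₀) * ev x) (q₀ + (p₀ - q₀) * ev v) := by
      rw [hdist, hdist, hn]
    obtain ⟨y, hy, hxy⟩ := apex_mem hA hpq hc hv hw hu hx hd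
    rw [hinj _ _ hxy]; exact hy
  · intro v w hv hw hu
    have e : (q₀ + (p₀ - q₀) * ev w) - (q₀ + (p₀ - q₀) * ev v) = (p₀ - q₀) * ev (w.sub v) := by
      rw [ev_sub]; ring
    have hne : (q₀ + (p₀ - q₀) * ev w) ≠ (q₀ + (p₀ - q₀) * ev v) := by
      intro h
      have h1 := sub_eq_zero.mpr h
      rw [e] at h1
      rcases mul_eq_zero.mp h1 with h2 | h2
      · exact hz h2
      · exact isU_ne hu h2
    have hk := hR _ hw _ hv hne
    let l := ((opts v w).filter fun y => decide (q₀ + (p₀ - q₀) * ev y ∈ S)).dedup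
    refine ⟨l, List.nodup_dedup _, ?_, ?_⟩
    · have hsub : (S.filter fun x => dist x (q₀ + (p₀ - q₀) * ev w)
          = dist x (q₀ + (p₀ - q₀) * ev v)) ⊆ l.toFinset.image fun y => q₀ + (p₀ - q₀) * ev y := by
        intro x hx
        obtain ⟨hx1, hx2⟩ := Finset.mem_filter.mp hx
        obtain ⟨y, hy, hxy⟩ := apex_mem hA hpq hc hv hw hu hx1 hx2
        rw [Finset.mem_image]
        refine ⟨y, ?_, hxy.symm⟩
        simp only [l, List.mem_toFinset, List.mem_dedup, List.mem_filter, decide_eq_true_eq]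
        exact ⟨hy, hxy ▸ hx1⟩
      calc k ≤ _ := hk
        _ ≤ _ := Finset.card_le_card hsub
        _ ≤ l.toFinset.card := Finset.card_image_le
        _ ≤ l.length := List.toFinset_card_le l
    · intro x hx
      simp only [l, List.mem_dedup, List.mem_filter, decide_eq_true_eq] at hx
      exact hx

lemma dec0 : dec 8521760 = ⟨0, 0, 0, 0⟩ := by decide
lemma dec1 : dec 8521761 = ⟨1, 0, 0, 0⟩ := by decide

/-- Main step: a `2`-rich set all of whose admissible orders divide `12`. -/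
theorem main12 {S : Finset ℂ} (hR : Rich 2 S) (hS : 2 ≤ S.card) (hA : ∀ m, Adm S m → m ∣ 12) :
    ∃ p₀ ∈ S, ∃ q₀ ∈ S, p₀ ≠ q₀ ∧ CoreP S p₀ q₀ ∧
      ∃ i < 6, Concl (fun v => q₀ + (p₀ - q₀) * ev v ∈ S) (kel i) := by
  obtain ⟨p₀, hp, q₀, hq, hpq, hc⟩ := core S hS
  refine ⟨p₀, hp, q₀, hq, hpq, hc, ?_⟩
  refine chk_sound 2 kel _ (sys_of_core hR hA hpq hc) Tree.tr [8521760, 8521761] [] ?_ ?_ chk_tree
  · intro n hn
    simp only [List.mem_cons, List.mem_nil_iff, or_false] at hn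
    rcases hn with rfl | rfl
    · rw [dec0]; simp [ev, hq]
    · rw [dec1]; simp [ev, hp]
  · intro n hn
    simp at hn

end KB
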