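import Mathlib
import Pool.Agent.KB.Defs

namespace KB

open scoped ComplexConjugate

/-- a unit of a cyclotomic ring divided by its complex conjugate is a root of unity -/
lemma unit_dir {N : ℕ} (hN : 0 < N) {ζ η : ℂ} (hζ : ζ ^ N = 1)
    (hη : η ∈ Algebra.adjoin ℤ {ζ}) (h0 : η ≠ 0) (hinv : IsIntegral ℤ η⁻¹) :
    ∃ n : ℕ, 0 < n ∧ (η / conj η) ^ n = 1 := by
  classical
  have hζ0 : ζ ≠ 0 := by
    rintro rfl
    rw [zero_pow hN.ne'] at hζ
    exact zero_ne_one hζ
  have hζi : IsIntegral ℤ ζ := by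
    apply IsIntegral.of_pow hN
    rw [hζ]; exact isIntegral_one
  have hnorm1 : ∀ w : ℂ, w ^ N = 1 → conj w = w⁻¹ := by
    intro w hw
    have h1 : ‖w‖ = 1 := by
      have : ‖w‖ ^ N = 1 := by rw [← norm_pow, hw, norm_one]
      exact (pow_eq_one_iff_of_nonneg (norm_nonneg _) hN.ne').mp this
    rw [Complex.inv_def, Complex.normSq_eq_norm_sq, h1]
    simp
  -- the field
  let K : IntermediateField ℚ ℂ := IntermediateField.adjoin ℚ {ζ}
  have hζQ : IsIntegral ℚ ζ := hζi.tower_top
  have hfd : FiniteDimensional ℚ K := IntermediateField.adjoin.finiteDimensional hζQ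
  have hnf : NumberField K := { to_charZero := inferInstance, to_finiteDimensional := hfd }
  have hζK : ζ ∈ K := IntermediateField.subset_adjoin ℚ _ (Set.mem_singleton _)
  -- elements of the ring and their conjugates are in `K`
  have hmem : ∀ y ∈ Algebra.adjoin ℤ {ζ}, y ∈ K ∧ conj y ∈ K ∧ IsIntegral ℤ y := by
    intro y hy
    induction hy using Algebra.adjoin_induction with
    | mem x hx =>
      rw [Set.mem_singleton_iff] at hx
      subst hx
      refine ⟨hζK, ?_, hζi⟩
      rw [hnorm1 _ hζ]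
      exact K.inv_mem hζK
    | algebraMap r =>
      refine ⟨?_, ?_, isIntegral_algebraMap⟩
      · exact_mod_cast K.intCast_mem r
      · simp only [algebraMap_int_eq, eq_intCast, map_intCast]
        exact K.intCast_mem r
    | add x y _ _ hx hy =>
      refine ⟨K.add_mem hx.1 hy.1, ?_, hx.2.2.add hy.2.2⟩
      rw [map_add]; exact K.add_mem hx.2.1 hy.2.1
    | mul x y _ _ hx hy =>
      refine ⟨K.mul_mem hx.1 hy.1, ?_, hx.2.2.mul hy.2.2⟩
      rw [map_mul]; exact K.mul_mem hx.2.1 hy.2.1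
  -- embeddings commute with conjugation
  have hemb : ∀ (φ : K →+* ℂ) (y : ℂ) (hy : y ∈ Algebra.adjoin ℤ {ζ}),
      φ ⟨conj y, (hmem y hy).2.1⟩ = conj (φ ⟨y, (hmem y hy).1⟩) := by
    intro φ y hy
    induction hy using Algebra.adjoin_induction with
    | mem x hx =>
      have hx' : x = ζ := hx
      subst hx'
      have h1 : (φ ⟨x, hζK⟩) ^ N = 1 := by
        rw [← map_pow]
        have : (⟨x, hζK⟩ : K) ^ N = 1 := Subtype.ext (by simpa using hζ)
        rw [this, map_one]
      rw [hnorm1 _ h1, ← map_inv₀]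
      congr 1
      apply Subtype.ext
      simp [hnorm1 _ hζ]
    | algebraMap r =>
      have e1 : (⟨conj ((algebraMap ℤ ℂ) r), (hmem _ (Subalgebra.algebraMap_mem _ r)).2.1⟩ : K)
          = (r : K) := by
        apply Subtype.ext; simp
      have e2 : (⟨(algebraMap ℤ ℂ) r, (hmem _ (Subalgebra.algebraMap_mem _ r)).1⟩ : K)
          = (r : K) := by
        apply Subtype.ext; simp
      rw [e1, e2, map_intCast, map_intCast]
    | add x y hx' hy' hx hy =>
      have e1 : (⟨conj (x + y), (hmem _ (Subalgebra.add_mem _ hx' hy')).2.1⟩ : K)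
          = ⟨conj x, (hmem x hx').2.1⟩ + ⟨conj y, (hmem y hy').2.1⟩ := by
        apply Subtype.ext; simp
      have e2 : (⟨x + y, (hmem _ (Subalgebra.add_mem _ hx' hy')).1⟩ : K)
          = ⟨x, (hmem x hx').1⟩ + ⟨y, (hmem y hy').1⟩ := by
        apply Subtype.ext; simp
      rw [e1, e2, map_add, map_add, map_add, hx, hy]
    | mul x y hx' hy' hx hy =>
      have e1 : (⟨conj (x * y), (hmem _ (Subalgebra.mul_mem _ hx' hy')).2.1⟩ : K)
          = ⟨conj x, (hmem x hx').2.1⟩ * ⟨conj y, (hmem y hy').2.1⟩ := by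
        apply Subtype.ext; simp
      have e2 : (⟨x * y, (hmem _ (Subalgebra.mul_mem _ hx' hy')).1⟩ : K)
          = ⟨x, (hmem x hx').1⟩ * ⟨y, (hmem y hy').1⟩ := by
        apply Subtype.ext; simp
      rw [e1, e2, map_mul, map_mul, map_mul, hx, hy]
  let a : K := ⟨η, (hmem η hη).1⟩
  let b : K := ⟨conj η, (hmem η hη).2.1⟩
  have hcη : conj η ≠ 0 := by simpa using h0
  have hab : ((a / b : K) : ℂ) = η / conj η := by simp [a, b]
  have hint : IsIntegral ℤ (a / b) := by
    rw [← isIntegral_algebraMap_iff (A := K) (B := ℂ) (algebraMap K ℂ).injective]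
    show IsIntegral ℤ ((a / b : K) : ℂ)
    rw [hab, div_eq_mul_inv]
    apply IsIntegral.mul (hmem η hη).2.2
    have : (conj η)⁻¹ = conj (η⁻¹) := by rw [map_inv₀]
    rw [this]
    exact hinv.map (Complex.conjAe.toAlgHom.restrictScalars ℤ)
  have hnorm : ∀ φ : K →+* ℂ, ‖φ (a / b)‖ = 1 := by
    intro φ
    rw [map_div₀, norm_div]
    have h1 : φ b = conj (φ a) := hemb φ η hη
    rw [h1, Complex.norm_conj]
    apply div_self
    rw [norm_ne_zero_iff]
    intro h
    have h2 : a = 0 := by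
      rw [← map_zero φ] at h
      exact φ.injective h
    apply h0
    have := congrArg (fun t : K => (t : ℂ)) h2
    simpa [a] using this
  obtain ⟨n, hn, hpow⟩ := NumberField.Embeddings.pow_eq_one_of_norm_eq_one K ℂ hint hnorm
  refine ⟨n, hn, ?_⟩
  rw [← hab]
  have := congrArg (fun t : K => (t : ℂ)) hpow
  simpa using this

end KB
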