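import Mathlib
import Pool.Agent.KB.Asm

namespace KB

open scoped ComplexConjugate
open Z4

/-- coordinates of `2 * kellyPt j` -/
def kap : Fin 8 → Z4
  | 0 => ⟨1, 0, 0, 1⟩
  | 1 => ⟨-1, 0, 0, 1⟩
  | 2 => ⟨-1, 0, 0, -1⟩
  | 3 => ⟨1, 0, 0, -1⟩
  | 4 => ⟨1, 2, 0, -1⟩
  | 5 => ⟨-1, 0, 2, 1⟩
  | 6 => ⟨-1, -2, 0, 1⟩
  | 7 => ⟨1, 0, -2, -1⟩

lemma zt3 : zt ^ 3 = Complex.I := by
  have h1 : (zt ^ 3 - Complex.I) * (zt ^ 3 + Complex.I) = 0 := by
    have := zt6
    linear_combination this - Complex.I_sq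
  rcases mul_eq_zero.mp h1 with h | h
  · linear_combination h
  · exfalso
    have h2 : zt = Complex.exp ((Real.pi / 6 : ℝ) * Complex.I) := by
      unfold zt; congr 1; push_cast; ring
    have h3 : zt ^ 3 = Complex.exp ((Real.pi / 2 : ℝ) * Complex.I) := by
      rw [h2, ← Complex.exp_nat_mul]; congr 1; push_cast; ring
    have h4 : (zt ^ 3).im = 1 := by
      rw [h3, Complex.exp_ofReal_mul_I_im, Real.sin_pi_div_two]
    have h5 : zt ^ 3 = -Complex.I := by linear_combination h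
    rw [h5] at h4
    simp at h4
    linarith

lemma kap_eq (j : Fin 8) : ev (kap j) = 2 * kellyPt j := by
  have h3 : Complex.I = zt ^ 3 := zt3.symm
  have hs : ((Real.sqrt 3 : ℝ) : ℂ) = 2 * zt - zt ^ 3 := by rw [← s3_eq, s3]
  have h4 := zt4
  fin_cases j <;> simp only [ev, kap, kellyPt, hs, h3] <;> push_cast
  · ring
  · ring
  · ring
  · ring
  · ring
  · linear_combination (zt ^ 2 - 1) * h4
  · ring
  · linear_combination (1 - zt ^ 2) * h4

/-- multiplication -/
def Z4.mul (x y : Z4) : Z4 :=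
  let y1 := y.mz
  let y2 := y1.mz
  let y3 := y2.mz
  ⟨x.a * y.a + x.b * y1.a + x.c * y2.a + x.d * y3.a,
   x.a * y.b + x.b * y1.b + x.c * y2.b + x.d * y3.b,
   x.a * y.c + x.b * y1.c + x.c * y2.c + x.d * y3.c,
   x.a * y.d + x.b * y1.d + x.c * y2.d + x.d * y3.d⟩

lemma ev_mul (x y : Z4) : ev (x.mul y) = ev x * ev y := by
  have h : ev (x.mul y) = x.a * ev y + x.b * ev y.mz + x.c * ev y.mz.mz + x.d * ev y.mz.mz.mz := by
    simp only [ev, Z4.mul]; push_cast; ring
  rw [h]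
  simp only [ev_mz]
  simp only [ev]; ring

/-- the similarities: `2 T_i[j] = α_i κ_j + β_i` -/
def al : Nat → Z4
  | 0 => ⟨0, -1, 0, 1⟩
  | 1 => ⟨-1, 0, 1, 0⟩
  | 2 => ⟨-1, 0, 0, 0⟩
  | 3 => ⟨-1, 0, 0, 0⟩
  | 4 => ⟨0, -1, 0, 1⟩
  | 5 => ⟨-1, 0, 1, 0⟩
  | _ => ⟨1, 0, 0, 0⟩

def be : Nat → Z4
  | 0 => ⟨0, -1, 1, 1⟩
  | 1 => ⟨1, 1, 1, 0⟩
  | 2 => ⟨1, 0, 0, -1⟩
  | 3 => ⟨1, 0, 0, 1⟩
  | 4 => ⟨2, 1, -1, -1⟩
  | 5 => ⟨1, -1, -1, 0⟩
  | _ => ⟨0, 0, 0, 0⟩

/-- the `j`-th point of `T_i` -/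
def kp (i : Nat) (j : Fin 8) : Nat := (kel i).getD j 0

lemma kp_mem : ∀ i < 6, ∀ j : Fin 8, kp i j ∈ kel i := by decide

lemma kp_surj : ∀ i < 6, ∀ n ∈ kel i, ∃ j : Fin 8, kp i j = n := by decide

lemma kp_rel : ∀ i < 6, ∀ j : Fin 8,
    (dec (kp i j)).add (dec (kp i j)) = ((al i).mul (kap j)).add (be i) := by decide

/-- antipodal index -/
def anti : Fin 8 → Fin 8
  | 0 => 2 | 1 => 3 | 2 => 0 | 3 => 1 | 4 => 6 | 5 => 7 | 6 => 4 | 7 => 5

lemma kp_unit : ∀ i < 6, ∀ j l : Fin 8, j ≠ l → l ≠ anti j →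
    isU ((dec (kp i l)).sub (dec (kp i j))) = true := by decide

/-- at most two points of `T_i` are equidistant from two non-antipodal points of `T_i` -/
lemma kp_two : ∀ i < 6, ∀ j l : Fin 8, j ≠ l → l ≠ anti j →
    (Finset.univ.filter fun t : Fin 8 =>
      ((dec (kp i t)).sub (dec (kp i j))).A = ((dec (kp i t)).sub (dec (kp i l))).A ∧
      ((dec (kp i t)).sub (dec (kp i j))).B = ((dec (kp i t)).sub (dec (kp i l))).B).card ≤ 2 := by
  decide

lemma anti_neg (j : Fin 8) : kellyPt (anti j) = - kellyPt j := by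
  fin_cases j <;> simp [anti, kellyPt] <;> ring

/-- **Theorem B.** If `S` is `2`-bisector-rich with at least two points and all admissible orders
of `S` divide `12`, then `S` contains a similar copy of Kelly's eight point set; the bisectors
of all pairs of points of the copy, other than the four antipodal pairs, contain exactly two
points of `S`. -/
theorem kelly_of_rich {S : Finset ℂ} (hR : Rich 2 S) (hS : 2 ≤ S.card)
    (hA : ∀ m, Adm S m → m ∣ 12) :
    ∃ c z : ℂ, z ≠ 0 ∧ (∀ j, c + z * kellyPt j ∈ S) ∧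
      ∀ j l, j ≠ l → kellyPt l ≠ - kellyPt j →
        (∀ x ∈ S, dist x (c + z * kellyPt j) = dist x (c + z * kellyPt l) →
          ∃ t, x = c + z * kellyPt t) ∧
        (S.filter fun x => dist x (c + z * kellyPt j) = dist x (c + z * kellyPt l)).card = 2 := by
  classical
  obtain ⟨p₀, hp, q₀, hq, hpq, hc, i, hi, h1, h2⟩ := main12 hR hS hA
  have hz : p₀ - q₀ ≠ 0 := sub_ne_zero.mpr hpq
  -- the points
  have hpt : ∀ j, ev (dec (kp i j)) = ev (al i) * kellyPt j + ev (be i) / 2 := by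
    intro j
    have h3 := congrArg ev (kp_rel i hi j)
    rw [ev_add, ev_add, ev_mul, kap_eq] at h3
    linear_combination h3 / 2
  have hal : ev (al i) ≠ 0 := by
    intro h0
    have h3 := ev_eq_zero h0
    revert h3
    interval_cases i <;> decide
  have hphi : ∀ j, q₀ + (p₀ - q₀) * ev (dec (kp i j))
      = (q₀ + (p₀ - q₀) * (ev (be i) / 2)) + ((p₀ - q₀) * ev (al i)) * kellyPt j := by
    intro j; rw [hpt j]; ring
  refine ⟨q₀ + (p₀ - q₀) * (ev (be i) / 2), (p₀ - q₀) * ev (al i), mul_ne_zero hz hal, ?_, ?_⟩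
  · intro j
    rw [← hphi j]
    exact h1 _ (kp_mem i hi j)
  · intro j l hjl hanti
    rw [← hphi j, ← hphi l]
    have hla : l ≠ anti j := by
      rintro rfl
      exact hanti (anti_neg j)
    have hu := kp_unit i hi j l hjl hla
    have hVj := h1 _ (kp_mem i hi j)
    have hVl := h1 _ (kp_mem i hi l)
    simp only at hVj hVl
    have hinj : ∀ v w : Z4, q₀ + (p₀ - q₀) * ev v = q₀ + (p₀ - q₀) * ev w → v = w := by
      intro v w h
      exact ev_inj (mul_left_cancel₀ hz (add_left_cancel h))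
    have hne : q₀ + (p₀ - q₀) * ev (dec (kp i j)) ≠ q₀ + (p₀ - q₀) * ev (dec (kp i l)) := by
      intro h
      have h3 := hinj _ _ h
      have h4 := isU_ne hu
      rw [← h3, ev_sub, sub_self] at h4
      exact h4 rfl
    have hnorm : ∀ v w : Z4, dist (q₀ + (p₀ - q₀) * ev v) (q₀ + (p₀ - q₀) * ev w)
        = ‖p₀ - q₀‖ * ‖ev (v.sub w)‖ := by
      intro v w
      rw [dist_eq_norm, ← norm_mul, ev_sub]
      congr 1; ring
    have hsub0 : ∀ x ∈ S, dist x (q₀ + (p₀ - q₀) * ev (dec (kp i j)))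
          = dist x (q₀ + (p₀ - q₀) * ev (dec (kp i l))) →
          ∃ t, x = q₀ + (p₀ - q₀) * ev (dec (kp i t)) := by
      intro x hx1 hx2
      obtain ⟨y, hy, hxy⟩ := apex_mem hA hpq hc hVj hVl hu hx1 hx2.symm
      obtain ⟨n, hn, hny⟩ := h2 _ (kp_mem i hi j) _ (kp_mem i hi l) hu y hy (by
        show q₀ + (p₀ - q₀) * ev y ∈ S
        rw [← hxy]; exact hx1)
      obtain ⟨t, ht⟩ := kp_surj i hi n hn
      exact ⟨t, by rw [hxy, ht, hny]⟩
    refine ⟨?_, ?_⟩
    · intro x hx1 hx2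
      obtain ⟨t, ht⟩ := hsub0 x hx1 hx2
      exact ⟨t, by rw [ht, hphi]⟩
    apply le_antisymm
    · -- at most two
      have hsub : (S.filter fun x => dist x (q₀ + (p₀ - q₀) * ev (dec (kp i j)))
          = dist x (q₀ + (p₀ - q₀) * ev (dec (kp i l)))) ⊆
          (Finset.univ.filter fun t : Fin 8 =>
            ((dec (kp i t)).sub (dec (kp i j))).A = ((dec (kp i t)).sub (dec (kp i l))).A ∧
            ((dec (kp i t)).sub (dec (kp i j))).B = ((dec (kp i t)).sub (dec (kp i l))).B).image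
            fun t => q₀ + (p₀ - q₀) * ev (dec (kp i t)) := by
        intro x hx
        obtain ⟨hx1, hx2⟩ := Finset.mem_filter.mp hx
        obtain ⟨y, hy, hxy⟩ := apex_mem hA hpq hc hVj hVl hu hx1 hx2.symm
        obtain ⟨n, hn, hny⟩ := h2 _ (kp_mem i hi j) _ (kp_mem i hi l) hu y hy (by
          show q₀ + (p₀ - q₀) * ev y ∈ S
          rw [← hxy]; exact hx1)
        obtain ⟨t, ht⟩ := kp_surj i hi n hn
        rw [Finset.mem_image]
        have hyt : y = dec (kp i t) := by rw [ht, hny]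
        refine ⟨t, ?_, by rw [hxy, hyt]⟩
        rw [Finset.mem_filter]
        refine ⟨Finset.mem_univ _, ?_⟩
        rw [hxy, hyt, hnorm, hnorm] at hx2
        have hzp : ‖p₀ - q₀‖ ≠ 0 := norm_ne_zero_iff.mpr hz
        have h5 := mul_left_cancel₀ hzp hx2
        have h6 := norm_ev_sq ((dec (kp i t)).sub (dec (kp i j)))
        have h7 := norm_ev_sq ((dec (kp i t)).sub (dec (kp i l)))
        rw [h5, h7] at h6
        obtain ⟨h8, h9⟩ := sqrt3_indep h6
        exact ⟨h8.symm, h9.symm⟩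
      calc _ ≤ _ := Finset.card_le_card hsub
        _ ≤ _ := Finset.card_image_le
        _ ≤ 2 := kp_two i hi j l hjl hla
    · exact hR _ hVj _ hVl hne

/-- **Theorem C.** A `3`-bisector-rich set with at least two points has an admissible order that
does not divide `12`. -/
theorem not_rich_three {S : Finset ℂ} (hR : Rich 3 S) (hS : 2 ≤ S.card) :
    ∃ m, Adm S m ∧ ¬ m ∣ 12 := by
  by_contra hcon
  push Not at hcon
  have hR2 : Rich 2 S := fun p hp q hq hpq => le_trans (by norm_num) (hR p hp q hq hpq)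
  obtain ⟨c, z, hz, hmem, htwo⟩ := kelly_of_rich hR2 hS hcon
  have h01 : kellyPt 1 ≠ - kellyPt 0 := by
    simp only [kellyPt]
    intro h
    have := congrArg Complex.im h
    simp at this
    norm_num at this
  have h01' : kellyPt 0 ≠ kellyPt 1 := by
    simp only [kellyPt]
    intro h
    have := congrArg Complex.re h
    simp at this
    norm_num at this
  have h2 := (htwo 0 1 (by decide) h01).2
  have h3 := hR _ (hmem 0) _ (hmem 1) (by
    intro h
    exact h01' (mul_left_cancel₀ hz (add_left_cancel h)))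
  omega

end KB
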