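import Mathlib
import Pool.Agent.KB.Final12

namespace KB

open scoped ComplexConjugate
open Z4

lemma kap_inj : ∀ j l : Fin 8, kap j = kap l → j = l := by decide

/-- an index pair with the same bisector as the antipodal pair `j, anti j` -/
def par : Fin 8 → Fin 8 × Fin 8
  | 0 => (4, 7) | 1 => (4, 5) | 2 => (4, 7) | 3 => (4, 5)
  | 4 => (0, 1) | 5 => (0, 3) | 6 => (0, 1) | 7 => (0, 3)

lemma kellyPt_inj : Function.Injective kellyPt := by
  intro j l h
  have h1 : ev (kap j) = ev (kap l) := by rw [kap_eq, kap_eq, h]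
  exact kap_inj j l (ev_inj h1)

/-- coordinates -/
noncomputable def kre : Fin 8 → ℝ
  | 0 => 1 / 2 | 1 => -1 / 2 | 2 => -1 / 2 | 3 => 1 / 2
  | 4 => (1 + Real.sqrt 3) / 2 | 5 => 0 | 6 => -((1 + Real.sqrt 3) / 2) | 7 => 0

noncomputable def kim : Fin 8 → ℝ
  | 0 => 1 / 2 | 1 => 1 / 2 | 2 => -1 / 2 | 3 => -1 / 2
  | 4 => 0 | 5 => (1 + Real.sqrt 3) / 2 | 6 => 0 | 7 => -((1 + Real.sqrt 3) / 2)

lemma kelly_coord (j : Fin 8) : kellyPt j = ⟨kre j, kim j⟩ := by
  fin_cases j <;> apply Complex.ext <;> simp [kellyPt, kre, kim]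

lemma nsq (w : ℂ) (j : Fin 8) : ‖w - kellyPt j‖ ^ 2 = (w.re - kre j) ^ 2 + (w.im - kim j) ^ 2 := by
  rw [← Complex.normSq_eq_norm_sq, Complex.normSq_apply, kelly_coord]
  simp only [Complex.sub_re, Complex.sub_im]
  ring

lemma norm_eq_iff (w : ℂ) (j l : Fin 8) : ‖w - kellyPt j‖ = ‖w - kellyPt l‖ ↔
    (w.re - kre j) ^ 2 + (w.im - kim j) ^ 2 = (w.re - kre l) ^ 2 + (w.im - kim l) ^ 2 := by
  rw [← nsq, ← nsq]
  constructor
  · intro h; rw [h]
  · intro h
    exact (sq_eq_sq₀ (norm_nonneg _) (norm_nonneg _)).mp h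

lemma par_iff (w : ℂ) (j : Fin 8) : ‖w - kellyPt j‖ = ‖w - kellyPt (anti j)‖ ↔
    ‖w - kellyPt (par j).1‖ = ‖w - kellyPt (par j).2‖ := by
  have hs : 0 < Real.sqrt 3 := Real.sqrt_pos.mpr (by norm_num)
  have ha : (1 + Real.sqrt 3) / 2 ≠ 0 := by positivity
  rw [norm_eq_iff, norm_eq_iff]
  generalize (w.re) = u
  generalize (w.im) = v
  fin_cases j <;> simp only [anti, par, kre, kim] <;>
    generalize (1 + Real.sqrt 3) / 2 = a at * <;> constructor <;> intro h
  · have h2 : u + v = 0 := by linarith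
    linear_combination (-2 * a) * h2
  · have h2 : u + v = 0 := by
      have : a * (u + v) = 0 := by linarith
      exact (mul_eq_zero.mp this).resolve_left ha
    linear_combination (-2) * h2
  · have h2 : u - v = 0 := by linarith
    linear_combination (-2 * a) * h2
  · have h2 : u - v = 0 := by
      have : a * (u - v) = 0 := by linarith
      exact (mul_eq_zero.mp this).resolve_left ha
    linear_combination 2 * h2
  · have h2 : u + v = 0 := by linarith
    linear_combination (-2 * a) * h2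
  · have h2 : u + v = 0 := by
      have : a * (u + v) = 0 := by linarith
      exact (mul_eq_zero.mp this).resolve_left ha
    linear_combination 2 * h2
  · have h2 : u - v = 0 := by linarith
    linear_combination (-2 * a) * h2
  · have h2 : u - v = 0 := by
      have : a * (u - v) = 0 := by linarith
      exact (mul_eq_zero.mp this).resolve_left ha
    linear_combination (-2) * h2
  · have h2 : u = 0 := by
      have : a * u = 0 := by linarith
      exact (mul_eq_zero.mp this).resolve_left ha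
    linear_combination (-2) * h2
  · have h2 : u = 0 := by linarith
    linear_combination (-4 * a) * h2
  · have h2 : v = 0 := by
      have : a * v = 0 := by linarith
      exact (mul_eq_zero.mp this).resolve_left ha
    linear_combination (-2) * h2
  · have h2 : v = 0 := by linarith
    linear_combination (-4 * a) * h2
  · have h2 : u = 0 := by
      have : a * u = 0 := by linarith
      exact (mul_eq_zero.mp this).resolve_left ha
    linear_combination (-2) * h2
  · have h2 : u = 0 := by linarith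
    linear_combination (4 * a) * h2
  · have h2 : v = 0 := by
      have : a * v = 0 := by linarith
      exact (mul_eq_zero.mp this).resolve_left ha
    linear_combination (-2) * h2
  · have h2 : v = 0 := by linarith
    linear_combination (4 * a) * h2

/-- the distance classes between the points: `0` equal, `1 : 1`, `2 : 2 + √3`, `3 : 2`,
`4 : 4 + 2 √3` (squares of the distances) -/
noncomputable def dval : Fin 5 → ℝ
  | 0 => 0 | 1 => 1 | 2 => 2 + Real.sqrt 3 | 3 => 2 | 4 => 4 + 2 * Real.sqrt 3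

def cl (t j : Fin 8) : Fin 5 :=
  let z := (kap t).sub (kap j)
  if z.A = 4 ∧ z.B = 0 then 1
  else if z.A = 8 ∧ z.B = 4 then 2
  else if z.A = 8 ∧ z.B = 0 then 3
  else if z.A = 16 ∧ z.B = 8 then 4
  else 0

lemma cl_val : ∀ t j : Fin 8, t ≠ j →
    (((kap t).sub (kap j)).A = 4 ∧ ((kap t).sub (kap j)).B = 0 ∧ cl t j = 1) ∨
    (((kap t).sub (kap j)).A = 8 ∧ ((kap t).sub (kap j)).B = 4 ∧ cl t j = 2) ∨
    (((kap t).sub (kap j)).A = 8 ∧ ((kap t).sub (kap j)).B = 0 ∧ cl t j = 3) ∨
    (((kap t).sub (kap j)).A = 16 ∧ ((kap t).sub (kap j)).B = 8 ∧ cl t j = 4) := by decide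

lemma dist_cl (t j : Fin 8) (h : t ≠ j) : ‖kellyPt t - kellyPt j‖ ^ 2 = dval (cl t j) := by
  have h1 : ev ((kap t).sub (kap j)) = 2 * (kellyPt t - kellyPt j) := by
    rw [ev_sub, kap_eq, kap_eq]; ring
  have h2 := norm_ev_sq ((kap t).sub (kap j))
  rw [h1, norm_mul, mul_pow] at h2
  have h3 : ‖(2 : ℂ)‖ ^ 2 = 4 := by norm_num
  rw [h3] at h2
  rcases cl_val t j h with ⟨hA, hB, hc⟩ | ⟨hA, hB, hc⟩ | ⟨hA, hB, hc⟩ | ⟨hA, hB, hc⟩ <;>
    rw [hA, hB] at h2 <;> rw [hc] <;> simp only [dval] <;> push_cast at h2 <;> linarith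

lemma cl_card1 : ∀ t : Fin 8, (Finset.univ.filter fun j => t ≠ j ∧ cl t j = 1).card ≤ 4 := by decide
lemma cl_card2 : ∀ t : Fin 8, (Finset.univ.filter fun j => t ≠ j ∧ cl t j = 2).card ≤ 4 := by decide
lemma cl_card3 : ∀ t : Fin 8, (Finset.univ.filter fun j => t ≠ j ∧ cl t j = 3).card ≤ 1 := by decide
lemma cl_card4 : ∀ t : Fin 8, (Finset.univ.filter fun j => t ≠ j ∧ cl t j = 4).card ≤ 1 := by decide
lemma cl_ne0 : ∀ t j : Fin 8, t ≠ j → cl t j = 1 ∨ cl t j = 2 ∨ cl t j = 3 ∨ cl t j = 4 := by decide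

lemma anti_iff : ∀ j l : Fin 8, l = anti j → (par j).1 ≠ (par j).2 ∧ (par j).2 ≠ anti (par j).1 := by
  decide

lemma par_ne (j : Fin 8) : (par j).1 ≠ (par j).2 := (anti_iff j _ rfl).1

lemma par_anti (j : Fin 8) : kellyPt (par j).2 ≠ - kellyPt (par j).1 := by
  intro h
  rw [← anti_neg] at h
  exact (anti_iff j _ rfl).2 (kellyPt_inj h)

lemma dist_sim (c z w t : ℂ) : dist (c + z * w) (c + z * t) = ‖z‖ * ‖w - t‖ := by
  rw [dist_eq_norm, ← norm_mul]; congr 1; ring

/-- the two closedness facts extended to all pairs -/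
lemma all_pairs {S : Finset ℂ} {c z : ℂ} (hz : z ≠ 0)
    (htwo : ∀ j l, j ≠ l → kellyPt l ≠ - kellyPt j →
        (∀ x ∈ S, dist x (c + z * kellyPt j) = dist x (c + z * kellyPt l) →
          ∃ t, x = c + z * kellyPt t) ∧
        (S.filter fun x => dist x (c + z * kellyPt j) = dist x (c + z * kellyPt l)).card = 2) :
    ∀ j l, j ≠ l →
        (∀ x ∈ S, dist x (c + z * kellyPt j) = dist x (c + z * kellyPt l) →
          ∃ t, x = c + z * kellyPt t) ∧
        (S.filter fun x => dist x (c + z * kellyPt j) = dist x (c + z * kellyPt l)).card = 2 := by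
  intro j l hjl
  by_cases h : kellyPt l = - kellyPt j
  · have hl : l = anti j := kellyPt_inj (by rw [h, anti_neg])
    subst hl
    have hzn : 0 < ‖z‖ := norm_pos_iff.mpr hz
    have key : ∀ x : ℂ, dist x (c + z * kellyPt j) = dist x (c + z * kellyPt (anti j)) ↔
        dist x (c + z * kellyPt (par j).1) = dist x (c + z * kellyPt (par j).2) := by
      intro x
      have hx : x = c + z * ((x - c) / z) := by field_simp; ring
      rw [hx, dist_sim, dist_sim, dist_sim, dist_sim]
      have h1 := par_iff ((x - c) / z) j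
      constructor
      · intro h2
        rw [h1.mp (mul_left_cancel₀ hzn.ne' h2)]
      · intro h2
        rw [h1.mpr (mul_left_cancel₀ hzn.ne' h2)]
    obtain ⟨h2, h3⟩ := htwo _ _ (par_ne j) (par_anti j)
    refine ⟨fun x hx hd => h2 x hx ((key x).mp hd), ?_⟩
    rw [← h3]
    congr 1
    apply Finset.filter_congr
    intro x _
    exact key x
  · exact htwo j l hjl h

/-- the combinatorial count: distances from an outside point -/
lemma count10 (ρ : Fin 8 → ℝ) (hinj : Function.Injective ρ) :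
    ∑ t : Fin 8, (Finset.univ.filter fun j : Fin 8 => t ≠ j ∧ dval (cl t j) = ρ t).card ≤ 10 := by
  classical
  let cap : Fin 5 → ℕ := fun k => if k = 1 then 4 else if k = 2 then 4 else if k = 3 then 1
    else if k = 4 then 1 else 0
  have h1 : ∀ t : Fin 8, (Finset.univ.filter fun j : Fin 8 => t ≠ j ∧ dval (cl t j) = ρ t).card ≤
      ∑ k : Fin 5, if dval k = ρ t then cap k else 0 := by
    intro t
    have hsub : (Finset.univ.filter fun j : Fin 8 => t ≠ j ∧ dval (cl t j) = ρ t) ⊆
        (Finset.univ : Finset (Fin 5)).biUnion fun k =>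
          if dval k = ρ t then (Finset.univ.filter fun j : Fin 8 => t ≠ j ∧ cl t j = k) else ∅ := by
      intro j hj
      obtain ⟨_, h2, h3⟩ := Finset.mem_filter.mp hj
      rw [Finset.mem_biUnion]
      refine ⟨cl t j, Finset.mem_univ _, ?_⟩
      rw [if_pos h3]
      exact Finset.mem_filter.mpr ⟨Finset.mem_univ _, h2, rfl⟩
    refine le_trans (Finset.card_le_card hsub) (le_trans Finset.card_biUnion_le ?_)
    apply Finset.sum_le_sum
    intro k _
    split_ifs with h
    · have h0 : ∀ t : Fin 8, (Finset.univ.filter fun j => t ≠ j ∧ cl t j = 0).card ≤ 0 := by decide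
      fin_cases k
      · exact h0 t
      · exact cl_card1 t
      · exact cl_card2 t
      · exact cl_card3 t
      · exact cl_card4 t
    · simp
  refine le_trans (Finset.sum_le_sum fun t _ => h1 t) ?_
  rw [Finset.sum_comm]
  have h2 : ∀ k : Fin 5, ∑ t : Fin 8, (if dval k = ρ t then cap k else 0) ≤ cap k := by
    intro k
    rw [← Finset.sum_filter, Finset.sum_const, smul_eq_mul]
    have : (Finset.univ.filter fun t : Fin 8 => dval k = ρ t).card ≤ 1 := by
      rw [Finset.card_le_one]
      intro a ha b hb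
      apply hinj
      rw [← (Finset.mem_filter.mp ha).2, ← (Finset.mem_filter.mp hb).2]
    calc _ ≤ 1 * cap k := Nat.mul_le_mul_right _ this
      _ = cap k := one_mul _
  refine le_trans (Finset.sum_le_sum fun k _ => h2 k) ?_
  decide

theorem gap {S : Finset ℂ} (hR : Rich 2 S) {c z : ℂ} (hz : z ≠ 0)
    (hmem : ∀ j, c + z * kellyPt j ∈ S)
    (hall : ∀ j l, j ≠ l → ∀ x ∈ S, dist x (c + z * kellyPt j) = dist x (c + z * kellyPt l) →
          ∃ t, x = c + z * kellyPt t) :
    S = Finset.univ.image (fun j => c + z * kellyPt j) ∨ 15 ≤ S.card := by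
  classical
  let P : Fin 8 → ℂ := fun j => c + z * kellyPt j
  have hPinj : Function.Injective P := by
    intro a b h
    exact kellyPt_inj (mul_left_cancel₀ hz (add_left_cancel h))
  have hzn : 0 < ‖z‖ := norm_pos_iff.mpr hz
  let K := Finset.univ.image P
  have hK : K ⊆ S := by
    intro x hx
    obtain ⟨j, _, rfl⟩ := Finset.mem_image.mp hx
    exact hmem j
  have hKcard : K.card = 8 := by
    rw [Finset.card_image_of_injective _ hPinj]; simp
  by_cases hO : (S \ K) = ∅
  · left
    exact Finset.Subset.antisymm (Finset.sdiff_eq_empty_iff_subset.mp hO) hK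
  right
  obtain ⟨y, hy⟩ := Finset.nonempty_iff_ne_empty.mpr hO
  obtain ⟨hyS, hyK⟩ := Finset.mem_sdiff.mp hy
  have hyP : ∀ j, y ≠ P j := by
    intro j h
    exact hyK (h ▸ Finset.mem_image_of_mem _ (Finset.mem_univ j))
  let O := S \ K
  have hcard : S.card = O.card + 8 := by
    rw [← hKcard]
    exact (Finset.card_sdiff_add_card_eq_card hK).symm
  have hOK : ∀ x ∈ O, ∀ j l, j ≠ l → dist x (P j) ≠ dist x (P l) := by
    intro x hx j l hjl hd
    obtain ⟨hxS, hxK⟩ := Finset.mem_sdiff.mp hx
    obtain ⟨t, ht⟩ := hall j l hjl x hxS hd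
    exact hxK (ht ▸ Finset.mem_image_of_mem _ (Finset.mem_univ t))
  let E : Fin 8 → Finset ℂ := fun j => O.filter fun x => dist x (P j) = dist x y
  let I : Fin 8 → Finset (Fin 8) := fun j => Finset.univ.filter fun t => dist (P t) (P j) = dist (P t) y
  have h1 : ∀ j, 2 ≤ (E j).card + (I j).card := by
    intro j
    have h2 := hR _ (hmem j) _ hyS (hyP j).symm
    have hsub : (S.filter fun x => dist x (P j) = dist x y) ⊆ E j ∪ (I j).image P := by
      intro x hx
      obtain ⟨hx1, hx2⟩ := Finset.mem_filter.mp hx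
      rw [Finset.mem_union]
      by_cases hxK : x ∈ K
      · right
        obtain ⟨t, _, rfl⟩ := Finset.mem_image.mp hxK
        exact Finset.mem_image_of_mem _ (Finset.mem_filter.mpr ⟨Finset.mem_univ _, hx2⟩)
      · left
        exact Finset.mem_filter.mpr ⟨Finset.mem_sdiff.mpr ⟨hx1, hxK⟩, hx2⟩
    calc 2 ≤ _ := h2
      _ ≤ _ := Finset.card_le_card hsub
      _ ≤ _ := Finset.card_union_le _ _
      _ ≤ _ := Nat.add_le_add_left Finset.card_image_le _
  have hsum : 16 ≤ ∑ j, (E j).card + ∑ j, (I j).card := by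
    rw [← Finset.sum_add_distrib]
    calc 16 = ∑ _j : Fin 8, 2 := by simp
      _ ≤ _ := Finset.sum_le_sum fun j _ => h1 j
  have hE : ∑ j, (E j).card + 1 ≤ O.card := by
    have hdisj : ∀ j ∈ (Finset.univ : Finset (Fin 8)), ∀ l ∈ (Finset.univ : Finset (Fin 8)),
        j ≠ l → Disjoint (E j) (E l) := by
      intro j _ l _ hjl
      rw [Finset.disjoint_left]
      intro x hxj hxl
      obtain ⟨hxO, h3⟩ := Finset.mem_filter.mp hxj
      obtain ⟨_, h4⟩ := Finset.mem_filter.mp hxl
      exact hOK x hxO j l hjl (h3.trans h4.symm)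
    rw [← Finset.card_biUnion hdisj]
    have hsub : (Finset.univ.biUnion E) ⊆ O.erase y := by
      intro x hx
      obtain ⟨j, _, hxj⟩ := Finset.mem_biUnion.mp hx
      obtain ⟨hxO, h3⟩ := Finset.mem_filter.mp hxj
      refine Finset.mem_erase.mpr ⟨?_, hxO⟩
      rintro rfl
      rw [dist_self] at h3
      exact hyP j (dist_eq_zero.mp h3)
    have := Finset.card_le_card hsub
    rw [Finset.card_erase_of_mem hy] at this
    have hpos : 0 < O.card := Finset.card_pos.mpr ⟨y, hy⟩
    have hOO : (S \ K).card = O.card := rfl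
    omega
  have hI : ∑ j, (I j).card ≤ 10 := by
    let w := (y - c) / z
    have hyw : y = c + z * w := by simp only [w]; field_simp; ring
    let ρ : Fin 8 → ℝ := fun t => ‖w - kellyPt t‖ ^ 2
    have hρ : Function.Injective ρ := by
      intro a b hab
      by_contra hne
      apply hOK y hy a b hne
      have h5 : ‖w - kellyPt a‖ = ‖w - kellyPt b‖ :=
        (sq_eq_sq₀ (norm_nonneg _) (norm_nonneg _)).mp hab
      show dist y (c + z * kellyPt a) = dist y (c + z * kellyPt b)
      rw [hyw, dist_sim, dist_sim, h5]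
    have hcomm : ∑ j, (I j).card = ∑ t, (Finset.univ.filter fun j => dist (P t) (P j) = dist (P t) y).card := by
      simp only [I, Finset.card_filter]
      rw [Finset.sum_comm]
    rw [hcomm]
    refine le_trans (Finset.sum_le_sum fun t _ => ?_) (count10 ρ hρ)
    apply Finset.card_le_card
    intro j hj
    obtain ⟨_, h6⟩ := Finset.mem_filter.mp hj
    have htj : t ≠ j := by
      rintro rfl
      rw [dist_self] at h6
      exact hyP t (dist_eq_zero.mp h6.symm).symm
    refine Finset.mem_filter.mpr ⟨Finset.mem_univ _, htj, ?_⟩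
    rw [← dist_cl t j htj]
    have h7 : dist (P t) (P j) = ‖z‖ * ‖kellyPt t - kellyPt j‖ := dist_sim c z _ _
    have h8 : dist (P t) y = ‖z‖ * ‖kellyPt t - w‖ := by
      rw [hyw]; exact dist_sim c z _ _
    rw [h7, h8] at h6
    have h9 := mul_left_cancel₀ hzn.ne' h6
    show _ = ‖w - kellyPt t‖ ^ 2
    rw [h9, norm_sub_rev]
  omega

end KB
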