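import Mathlib
import Pool.Agent.KB.Gap

namespace KB

open scoped ComplexConjugate

/-- roots of unity in `ℚ(ζ₁₂)` have order dividing `12` -/
lemma order_dvd {ξ : ℂ} {m : ℕ} (hm : 1 < m) (h : IsPrimitiveRoot ξ m)
    (hξ : ξ ∈ IntermediateField.adjoin ℚ ({zt} : Set ℂ)) : m ∣ 12 := by
  have halg : IsAlgebraic ℚ zt := (zt_prim.isIntegral (by norm_num)).tower_top.isAlgebraic
  have hcyc : IsCyclotomicExtension {12} ℚ (IntermediateField.adjoin ℚ ({zt} : Set ℂ)) := by
    change IsCyclotomicExtension {12} ℚ (IntermediateField.adjoin ℚ {zt}).toSubalgebra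
    rw [IntermediateField.adjoin_simple_toSubalgebra_of_isAlgebraic halg]
    exact zt_prim.adjoin_isCyclotomicExtension ℚ
  have hfin : FiniteDimensional ℚ (IntermediateField.adjoin ℚ ({zt} : Set ℂ)) :=
    IsCyclotomicExtension.finiteDimensional {12} ℚ _
  have hnf : NumberField (IntermediateField.adjoin ℚ ({zt} : Set ℂ)) :=
    { to_charZero := inferInstance, to_finiteDimensional := hfin }
  have h1 : IsPrimitiveRoot (⟨ξ, hξ⟩ : IntermediateField.adjoin ℚ ({zt} : Set ℂ)) m := by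
    rw [← IsPrimitiveRoot.map_iff_of_injective (f := algebraMap
      (IntermediateField.adjoin ℚ ({zt} : Set ℂ)) ℂ)
      (algebraMap (IntermediateField.adjoin ℚ ({zt} : Set ℂ)) ℂ).injective]
    exact h
  have h2 : m ∣ 2 * 12 := h1.dvd_of_isCyclotomicExtension 12 (by omega)
  have hroot := IsCyclotomicExtension.zeta_spec 12 ℚ (IntermediateField.adjoin ℚ ({zt} : Set ℂ))
  have key := IsPrimitiveRoot.lcm_totient_le_finrank h1 hroot
      (Polynomial.cyclotomic.irreducible_rat <| Nat.lcm_pos (by omega) (by norm_num))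
  rw [IsCyclotomicExtension.finrank (IntermediateField.adjoin ℚ ({zt} : Set ℂ))
    (Polynomial.cyclotomic.irreducible_rat (by norm_num : 0 < 12))] at key
  have hle : m ≤ 24 := Nat.le_of_dvd (by norm_num) h2
  have h3 : ∀ m : ℕ, m < 25 → m ∣ 2 * 12 → Nat.totient (Nat.lcm m 12) ≤ Nat.totient 12 → m ∣ 12 := by
    decide
  exact h3 m (by omega) h2 key

lemma coord_mem {p : ℂ} (h : Coord3 p) : p ∈ IntermediateField.adjoin ℚ ({zt} : Set ℂ) := by
  obtain ⟨a, b, c, d, h1, h2⟩ := h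
  have hz : zt ∈ IntermediateField.adjoin ℚ ({zt} : Set ℂ) :=
    IntermediateField.subset_adjoin ℚ _ (Set.mem_singleton _)
  have hs : ((Real.sqrt 3 : ℝ) : ℂ) ∈ IntermediateField.adjoin ℚ ({zt} : Set ℂ) := by
    rw [← s3_eq, s3]
    exact sub_mem (mul_mem (ofNat_mem _ 2) hz) (pow_mem hz 3)
  have hI : Complex.I ∈ IntermediateField.adjoin ℚ ({zt} : Set ℂ) := by
    rw [← zt3]; exact pow_mem hz 3
  have hq : ∀ r : ℚ, (r : ℂ) ∈ IntermediateField.adjoin ℚ ({zt} : Set ℂ) := fun r =>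
    IntermediateField.algebraMap_mem _ r
  have hp : p = ((a : ℂ) + b * (Real.sqrt 3 : ℝ)) + ((c : ℂ) + d * (Real.sqrt 3 : ℝ)) * Complex.I := by
    apply Complex.ext
    · simp [h1]
    · simp [h2]
  rw [hp]
  exact add_mem (add_mem (hq a) (mul_mem (hq b) hs)) (mul_mem (add_mem (hq c) (mul_mem (hq d) hs)) hI)

lemma adm_of_coord {S : Finset ℂ} (h : ∀ p ∈ S, Coord3 p) : ∀ m, Adm S m → m ∣ 12 := by
  rintro m ⟨hm, _, p, hp, q, hq, x, hx, _, _, hprim⟩
  refine order_dvd hm hprim ?_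
  exact div_mem (sub_mem (coord_mem (h x hx)) (coord_mem (h p hp)))
    (sub_mem (coord_mem (h x hx)) (coord_mem (h q hq)))

lemma adm_of_coord_affine {S : Finset ℂ} {a b : ℂ} (ha : a ≠ 0)
    (h : ∀ p ∈ S, Coord3 (a * p + b)) : ∀ m, Adm S m → m ∣ 12 := by
  rintro m ⟨hm, _, p, hp, q, hq, x, hx, _, _, hprim⟩
  refine order_dvd hm hprim ?_
  have e : (x - p) / (x - q) = ((a * x + b) - (a * p + b)) / ((a * x + b) - (a * q + b)) := by
    have e1 : (a * x + b) - (a * p + b) = a * (x - p) := by ring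
    have e2 : (a * x + b) - (a * q + b) = a * (x - q) := by ring
    rw [e1, e2, mul_div_mul_left _ _ ha]
  rw [e]
  exact div_mem (sub_mem (coord_mem (h x hx)) (coord_mem (h p hp)))
    (sub_mem (coord_mem (h x hx)) (coord_mem (h q hq)))

end KB
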