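import Mathlib
import Pool.Agent.KB.Core
import Pool.Agent.KB.B3

namespace KB

open scoped ComplexConjugate

theorem reduction (k : ℕ) (S : Finset ℂ) (hS : 2 ≤ S.card) (hR : Rich k S) :
    ∃ N : ℕ, 0 < N ∧ ∃ c z : ℂ, z ≠ 0 ∧ ∃ V : Finset ℂ,
      (∀ v ∈ V, v ∈ Algebra.adjoin ℤ {Complex.exp (2 * Real.pi * Complex.I / N)}) ∧
      (∀ v ∈ V, c + z * v ∈ S) ∧ 0 ∈ V ∧ 1 ∈ V ∧
      ∀ p ∈ V, ∀ q ∈ V, p ≠ q → AUnit (p - q) →
        1 ≤ ‖p - q‖ ∧ k ≤ (V.filter fun x => dist x p = dist x q).card ∧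
        ∀ s ∈ S, dist s (c + z * p) = dist s (c + z * q) →
          ∃ x ∈ V, s = c + z * x ∧ AUnit (x - p) ∧ AUnit (x - q) ∧
            ∃ m, 1 < m ∧ ¬ IsPrimePow m ∧ IsPrimitiveRoot ((x - p) / (x - q)) m := by
  classical
  obtain ⟨p₀, hp₀, q₀, hq₀, hpq₀, hc⟩ := core S hS
  have hz : p₀ - q₀ ≠ 0 := sub_ne_zero.mpr hpq₀
  have hzn : 0 < ‖p₀ - q₀‖ := norm_pos_iff.mpr hz
  let f : ℂ × ℂ × ℂ → ℕ := fun t =>
    if 0 < orderOf ((t.2.2 - t.1) / (t.2.2 - t.2.1)) then orderOf ((t.2.2 - t.1) / (t.2.2 - t.2.1))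
    else 1
  have hf : ∀ t, 0 < f t := by
    intro t
    simp only [f]
    split_ifs with h
    · exact h
    · exact one_pos
  let N := ∏ t ∈ S ×ˢ S ×ˢ S, f t
  have hN : 0 < N := Finset.prod_pos fun t _ => hf t
  have hdvd : ∀ p ∈ S, ∀ q ∈ S, ∀ x ∈ S, ∀ m, 0 < m → IsPrimitiveRoot ((x - p) / (x - q)) m →
      m ∣ N := by
    intro p hp q hq x hx m hm hprim
    have h1 : f (p, q, x) = m := by
      have h2 := hprim.eq_orderOf
      simp only [f]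
      rw [← h2, if_pos hm]
    rw [← h1]
    exact Finset.dvd_prod_of_mem f (by simp [hp, hq, hx])
  set ζ := Complex.exp (2 * Real.pi * Complex.I / N) with hζdef
  have hζ : IsPrimitiveRoot ζ N := Complex.isPrimitiveRoot_exp N hN.ne'
  have : NeZero N := ⟨hN.ne'⟩
  let R := Algebra.adjoin ℤ {ζ}
  have hroot : ∀ ξ : ℂ, ξ ^ N = 1 → ξ ∈ R := by
    intro ξ hξ
    obtain ⟨i, _, rfl⟩ := hζ.eq_pow_of_pow_eq_one hξ
    exact Subalgebra.pow_mem _ (Algebra.subset_adjoin (Set.mem_singleton _)) i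
  let V := (S.image fun s => (s - q₀) / (p₀ - q₀)).filter fun v => v ∈ R
  have memV : ∀ v, v ∈ V ↔ (q₀ + (p₀ - q₀) * v ∈ S) ∧ v ∈ R := by
    intro v
    simp only [V, Finset.mem_filter, Finset.mem_image]
    constructor
    · rintro ⟨⟨s, hs, rfl⟩, hv⟩
      refine ⟨?_, hv⟩
      rw [mul_div_cancel₀ _ hz]
      simpa using hs
    · rintro ⟨hv, hR'⟩
      refine ⟨⟨_, hv, ?_⟩, hR'⟩
      rw [add_sub_cancel_left, mul_div_cancel_left₀ _ hz]
  -- the main closure step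
  have step : ∀ p ∈ V, ∀ q ∈ V, p ≠ q → AUnit (p - q) →
      1 ≤ ‖p - q‖ ∧ ∀ s ∈ S, dist s (q₀ + (p₀ - q₀) * p) = dist s (q₀ + (p₀ - q₀) * q) →
          ∃ x ∈ V, s = q₀ + (p₀ - q₀) * x ∧ AUnit (x - p) ∧ AUnit (x - q) ∧
            ∃ m, 1 < m ∧ ¬ IsPrimePow m ∧ IsPrimitiveRoot ((x - p) / (x - q)) m := by
    intro p hp q hq hpq hu
    obtain ⟨hpS, hpR⟩ := (memV p).mp hp
    obtain ⟨hqS, hqR⟩ := (memV q).mp hq
    have hsub : (q₀ + (p₀ - q₀) * p) - (q₀ + (p₀ - q₀) * q) = (p₀ - q₀) * (p - q) := by ring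
    have hpq' : p - q ≠ 0 := sub_ne_zero.mpr hpq
    have hne : (q₀ + (p₀ - q₀) * p) ≠ (q₀ + (p₀ - q₀) * q) := by
      intro h
      have := sub_eq_zero.mpr h
      rw [hsub] at this
      exact (mul_ne_zero hz hpq') this
    have hU : Uni (((q₀ + (p₀ - q₀) * p) - (q₀ + (p₀ - q₀) * q)) / (p₀ - q₀)) := by
      rw [hsub, mul_div_cancel_left₀ _ hz]
      exact ⟨hu.1, hu.2, unit_dir hN hζ.pow_eq_one (Subalgebra.sub_mem _ hpR hqR) hpq' hu.2⟩
    obtain ⟨h1, h2⟩ := hc _ hpS _ hqS hne hU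
    refine ⟨?_, ?_⟩
    · rw [hsub, norm_mul] at h1
      by_contra hlt
      push Not at hlt
      have := mul_lt_mul_of_pos_left hlt hzn
      linarith
    · intro s hs hd
      obtain ⟨h3, h4, m, hm1, hm2, hm3⟩ := h2 s hs hd
      obtain ⟨hsp, hsq⟩ := apex_ne hne hd
      have hsq' : s - (q₀ + (p₀ - q₀) * q) ≠ 0 := sub_ne_zero.mpr hsq
      have hmN : m ∣ N := hdvd _ hpS _ hqS _ hs m (by omega) hm3
      have hξN : ((s - (q₀ + (p₀ - q₀) * p)) / (s - (q₀ + (p₀ - q₀) * q))) ^ N = 1 := by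
        obtain ⟨t, ht⟩ := hmN
        rw [ht, pow_mul, hm3.pow_eq_one, one_pow]
      set ξ := (s - (q₀ + (p₀ - q₀) * p)) / (s - (q₀ + (p₀ - q₀) * q)) with hξ
      have hξ1 : 1 - ξ ≠ 0 := sub_ne_zero.mpr (hm3.ne_one hm1).symm
      have hinv : (1 - ξ)⁻¹ ∈ R := by
        have h5 := inv_mem_adjoin hm3 hm1 hm2
        exact Algebra.adjoin_mono (s := {ξ}) (t := (R : Set ℂ)) (by
          intro y hy
          rw [Set.mem_singleton_iff] at hy
          rw [hy]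
          exact hroot ξ hξN) h5 |> fun h => by
            rwa [Algebra.adjoin_eq] at h
      let x := q + (p - q) * (1 - ξ)⁻¹
      have hxR : x ∈ R := Subalgebra.add_mem _ hqR
        (Subalgebra.mul_mem _ (Subalgebra.sub_mem _ hpR hqR) hinv)
      have hsx : s = q₀ + (p₀ - q₀) * x := by
        have h6 : (1 - ξ) * (s - (q₀ + (p₀ - q₀) * q)) = (p₀ - q₀) * (p - q) := by
          have h7 : ξ * (s - (q₀ + (p₀ - q₀) * q)) = s - (q₀ + (p₀ - q₀) * p) := by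
            rw [hξ, div_mul_cancel₀ _ hsq']
          linear_combination -h7
        have h8 : s - (q₀ + (p₀ - q₀) * q) = (p₀ - q₀) * (p - q) * (1 - ξ)⁻¹ := by
          rw [← h6]
          field_simp
        simp only [x]
        linear_combination h8
      have hxV : x ∈ V := (memV x).mpr ⟨hsx ▸ hs, hxR⟩
      have e1 : (s - (q₀ + (p₀ - q₀) * p)) = (p₀ - q₀) * (x - p) := by rw [hsx]; ring
      have e2 : (s - (q₀ + (p₀ - q₀) * q)) = (p₀ - q₀) * (x - q) := by rw [hsx]; ring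
      rw [e1, mul_div_cancel_left₀ _ hz] at h3
      rw [e2, mul_div_cancel_left₀ _ hz] at h4
      refine ⟨x, hxV, hsx, ⟨h3.1, h3.2.1⟩, ⟨h4.1, h4.2.1⟩, m, hm1, hm2, ?_⟩
      have e3 : (x - p) / (x - q) = ξ := by
        rw [hξ, e1, e2, mul_div_mul_left _ _ hz]
      rw [e3]; exact hm3
  refine ⟨N, hN, q₀, p₀ - q₀, hz, V, fun v hv => ((memV v).mp hv).2,
    fun v hv => ((memV v).mp hv).1, ?_, ?_, ?_⟩
  · rw [memV]
    refine ⟨by simpa using hq₀, Subalgebra.zero_mem _⟩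
  · rw [memV]
    refine ⟨by simpa using hp₀, Subalgebra.one_mem _⟩
  · intro p hp q hq hpq hu
    obtain ⟨h1, h2⟩ := step p hp q hq hpq hu
    refine ⟨h1, ?_, h2⟩
    have hpS := ((memV p).mp hp).1
    have hqS := ((memV q).mp hq).1
    have hne : (q₀ + (p₀ - q₀) * p) ≠ (q₀ + (p₀ - q₀) * q) := by
      intro h
      exact hpq (mul_left_cancel₀ hz (add_left_cancel h))
    have hk := hR _ hpS _ hqS hne
    refine le_trans hk ?_
    have hsub : (S.filter fun x => dist x (q₀ + (p₀ - q₀) * p) = dist x (q₀ + (p₀ - q₀) * q)) ⊆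
        (V.filter fun x => dist x p = dist x q).image fun v => q₀ + (p₀ - q₀) * v := by
      intro s hs
      obtain ⟨hs1, hs2⟩ := Finset.mem_filter.mp hs
      obtain ⟨x, hx, hsx, _⟩ := h2 s hs1 hs2
      rw [Finset.mem_image]
      refine ⟨x, Finset.mem_filter.mpr ⟨hx, ?_⟩, hsx.symm⟩
      rw [hsx] at hs2
      have e : ∀ u v : ℂ, dist (q₀ + (p₀ - q₀) * u) (q₀ + (p₀ - q₀) * v) = ‖p₀ - q₀‖ * dist u v := by
        intro u v
        rw [dist_eq_norm, dist_eq_norm, ← norm_mul]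
        congr 1; ring
      rw [e, e] at hs2
      exact mul_left_cancel₀ hzn.ne' hs2
    exact le_trans (Finset.card_le_card hsub) Finset.card_image_le

end KB
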